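import Mathlib
import Pool.Agent.R958.Animal

/-!
# Marked Poisson configurations with general marks

The results on thinning of `R958/Animal.lean`, for marks in an arbitrary measurable space.
-/

set_option autoImplicit false
open scoped ENNReal BigOperators
open MeasureTheory ProbabilityTheory

namespace Pool.Agent.V5helper43.PR

open Pool.Agent.H592 Pool.Agent.R958.Animal

noncomputable section

variable {d : ℕ} {X M : Type} [MeasurableSpace M]

instance markedLaw_prob (v : NNReal) (ρ : Measure M) [IsProbabilityMeasure ρ] :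
    IsProbabilityMeasure (markedLaw X v ρ) := by
  unfold markedLaw; infer_instance

theorem avoidG [Countable X] (v : NNReal) (ρ : Measure M)
    [IsProbabilityMeasure ρ] (J : Finset X) (A : X → Set M) (hA : ∀ x, MeasurableSet (A x)) :
    markedLaw X v ρ {ω | ∀ x ∈ J, ∀ i < ω.1 x, ω.2 (x, i) ∉ A x}
      = ∏ x ∈ J, ENNReal.ofReal (Real.exp (-(v * (ρ (A x)).toReal))) := by
  classical
  unfold markedLaw
  have hms : MeasurableSet {ω : (X → ℕ) × (X × ℕ → M) | ∀ x ∈ J, ∀ i < ω.1 x,
      ω.2 (x, i) ∉ A x} := by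
    have : {ω : (X → ℕ) × (X × ℕ → M) | ∀ x ∈ J, ∀ i < ω.1 x, ω.2 (x, i) ∉ A x}
        = ⋂ x ∈ J, ⋂ i : ℕ, ({ω | i < ω.1 x}ᶜ ∪ {ω | ω.2 (x, i) ∈ A x}ᶜ) := by
      ext ω
      simp only [Set.mem_ofPred_eq, Set.mem_iInter, Set.mem_union, Set.mem_compl_iff]
      constructor
      · intro h x hx i
        by_cases hi : i < ω.1 x
        · exact Or.inr (h x hx i hi)
        · exact Or.inl hi
      · intro h x hx i hi
        rcases h x hx i with h1 | h1
        · exact absurd hi h1
        · exact h1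
    rw [this]
    refine Finset.measurableSet_biInter J fun x _ => MeasurableSet.iInter fun i => ?_
    refine MeasurableSet.union (MeasurableSet.compl ?_) (MeasurableSet.compl ?_)
    · have h1 : Measurable (fun ω : (X → ℕ) × (X × ℕ → M) => ω.1 x) := by fun_prop
      exact h1 (measurableSet_Ioi (a := i))
    · have h1 : Measurable (fun ω : (X → ℕ) × (X × ℕ → M) => ω.2 (x, i)) := by fun_prop
      exact h1 (hA x)
  rw [Measure.prod_apply hms]
  have h1 : ∀ N : X → ℕ, (Measure.infinitePi (fun _ : X × ℕ => ρ))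
      (Prod.mk N ⁻¹' {ω : (X → ℕ) × (X × ℕ → M) | ∀ x ∈ J, ∀ i < ω.1 x, ω.2 (x, i) ∉ A x})
      = ∏ x ∈ J, (1 - ρ (A x)) ^ (N x) := by
    intro N
    set J' : Finset (X × ℕ) := J.biUnion fun x => (Finset.range (N x)).image fun i => (x, i) with hJ'
    have h2 : Prod.mk N ⁻¹' {ω : (X → ℕ) × (X × ℕ → M) | ∀ x ∈ J, ∀ i < ω.1 x, ω.2 (x, i) ∉ A x}
        = (J' : Set (X × ℕ)).pi fun j => (A j.1)ᶜ := by
      ext w
      simp only [Set.mem_preimage, Set.mem_ofPred_eq, hJ', Set.mem_pi, Finset.mem_coe,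
        Finset.mem_biUnion, Finset.mem_image, Finset.mem_range, Set.mem_compl_iff]
      constructor
      · rintro h j ⟨x, hx, i, hi, rfl⟩
        exact h x hx i hi
      · intro h x hx i hi
        exact h (x, i) ⟨x, hx, i, hi, rfl⟩
    rw [h2, Measure.infinitePi_pi _ fun j _ => (hA j.1).compl]
    rw [hJ', Finset.prod_biUnion]
    · refine Finset.prod_congr rfl fun x _ => ?_
      rw [Finset.prod_image (by intro a _ b _ h; simpa using h)]
      have h5 : ∀ i ∈ Finset.range (N x), ρ (A (x, i).1)ᶜ = 1 - ρ (A x) :=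
        fun i _ => prob_compl_eq_one_sub (hA x)
      rw [Finset.prod_congr rfl h5]
      simp
    · intro x _ y _ hxy
      simp only [Function.onFun]
      rw [Finset.disjoint_left]
      intro j hj1 hj2
      rw [Finset.mem_image] at hj1 hj2
      obtain ⟨i, _, rfl⟩ := hj1
      obtain ⟨i', _, h⟩ := hj2
      simp only [Prod.mk.injEq] at h
      exact hxy h.1.symm
  simp_rw [h1]
  rw [lintegral_prod_eq_prod_lintegral_of_indepFun J
    (fun x (N : X → ℕ) => (1 - ρ (A x)) ^ (N x))
    (iIndepFun_infinitePi (P := fun _ : X => (poissonPMF v).toMeasure)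
      (X := fun x n => (1 - ρ (A x)) ^ n)
      (fun x => measurable_from_nat))
    (fun x => (measurable_from_nat (f := fun n => (1 - ρ (A x)) ^ n)).comp
      (measurable_pi_apply x))]
  refine Finset.prod_congr rfl fun x _ => ?_
  have h4 := lintegral_map (μ := Measure.infinitePi (fun _ : X => (poissonPMF v).toMeasure))
    (f := fun n => (1 - ρ (A x)) ^ n)
    (g := fun N : X → ℕ => N x) measurable_from_nat (measurable_pi_apply x)
  rw [Measure.infinitePi_map_eval] at h4
  rw [← h4]
  have h6 : ρ (A x) = ENNReal.ofReal (ρ (A x)).toReal :=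
    (ENNReal.ofReal_toReal (measure_ne_top _ _)).symm
  conv_lhs => rw [h6]
  rw [poisson_gf v _ ENNReal.toReal_nonneg (by
    have := ENNReal.toReal_mono (by simp) (prob_le_one (μ := ρ) (s := A x))
    simpa using this)]

variable (φ : X ≃ V d) (sh : M → Finset (V d))

/-- presence indicator of the animal `k.2` rooted at `k.1` -/
def xiG (k : V d × Finset (V d)) (ω : (X → ℕ) × (X × ℕ → M)) : Bool :=
  open Classical in decide (∃ i < ω.1 (φ.symm k.1), sh (ω.2 (φ.symm k.1, i)) = k.2)

theorem xiG_false_iff (k : V d × Finset (V d)) (ω : (X → ℕ) × (X × ℕ → M)) :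
    xiG φ sh k ω = false ↔ ∀ i < ω.1 (φ.symm k.1), sh (ω.2 (φ.symm k.1, i)) ≠ k.2 := by
  unfold xiG
  simp

theorem xiG_true_iff (k : V d × Finset (V d)) (ω : (X → ℕ) × (X × ℕ → M)) :
    xiG φ sh k ω = true ↔ ∃ i < ω.1 (φ.symm k.1), sh (ω.2 (φ.symm k.1, i)) = k.2 := by
  unfold xiG
  simp

/-- joint absence probabilities -/
theorem absentG [Countable X] (hsh : ∀ A, MeasurableSet (sh ⁻¹' {A})) (v : NNReal) (ρ : Measure M)
    [IsProbabilityMeasure ρ] (J : Finset (V d × Finset (V d))) :
    markedLaw X v ρ (⋂ k ∈ J, {ω | xiG φ sh k ω = false})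
      = ∏ k ∈ J, ENNReal.ofReal (Real.exp (-(v * (ρ (sh ⁻¹' {k.2})).toReal))) := by
  classical
  set B : X → Finset (Finset (V d)) := fun x => (J.filter fun k => φ.symm k.1 = x).image Prod.snd
    with hB
  have hset : (⋂ k ∈ J, {ω | xiG φ sh k ω = false})
      = {ω | ∀ x ∈ J.image (fun k => φ.symm k.1), ∀ i < ω.1 x,
          ω.2 (x, i) ∉ sh ⁻¹' ((B x : Finset (Finset (V d))) : Set (Finset (V d)))} := by
    ext ω
    simp only [Set.mem_iInter, Set.mem_ofPred_eq, Finset.mem_image, hB, Finset.coe_image,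
      Finset.coe_filter, Set.mem_preimage, Set.mem_image, not_exists, not_and]
    constructor
    · rintro h x ⟨k, hk, rfl⟩ i hi k' ⟨hk', hx⟩ heq
      have := (xiG_false_iff φ sh k' ω).mp (h k' hk')
      rw [hx] at this
      exact this i hi heq.symm
    · intro h k hk
      rw [xiG_false_iff]
      intro i hi heq
      exact h (φ.symm k.1) ⟨k, hk, rfl⟩ i hi k ⟨hk, rfl⟩ heq.symm
  have hBm : ∀ x, MeasurableSet (sh ⁻¹' (B x : Set (Finset (V d)))) := by
    intro x
    have h2 : sh ⁻¹' (B x : Set (Finset (V d))) = ⋃ A ∈ B x, sh ⁻¹' {A} := by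
      ext s; simp
    rw [h2]
    exact Finset.measurableSet_biUnion _ fun A _ => hsh A
  rw [hset, avoidG v ρ _ (fun x => sh ⁻¹' (B x : Set (Finset (V d)))) hBm]
  have hx : ∀ x ∈ J.image (fun k => φ.symm k.1),
      ENNReal.ofReal (Real.exp (-(v * (ρ (sh ⁻¹' (B x : Set (Finset (V d))))).toReal)))
      = ∏ k ∈ J.filter (fun k => φ.symm k.1 = x),
        ENNReal.ofReal (Real.exp (-(v * (ρ (sh ⁻¹' {k.2})).toReal))) := by
    intro x _
    have h1 : ρ (sh ⁻¹' (B x : Set (Finset (V d)))) = ∑ A ∈ B x, ρ (sh ⁻¹' {A}) := by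
      have h2 : sh ⁻¹' (B x : Set (Finset (V d))) = ⋃ A ∈ B x, sh ⁻¹' {A} := by
        ext s; simp
      rw [h2, measure_biUnion_finset]
      · intro A _ A' _ hne
        refine Set.disjoint_left.mpr fun s hs hs' => hne ?_
        simp only [Set.mem_preimage, Set.mem_singleton_iff] at hs hs'
        rw [← hs, hs']
      · intro A _
        exact hsh A
    rw [h1, ENNReal.toReal_sum (fun A _ => measure_ne_top _ _)]
    rw [← ENNReal.ofReal_prod_of_nonneg (fun k _ => (Real.exp_pos _).le), ← Real.exp_sum]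
    congr 2
    rw [Finset.sum_neg_distrib, ← Finset.mul_sum, hB]
    dsimp only
    rw [Finset.sum_image]
    intro k hk k' hk' heq
    simp only [Finset.coe_filter, Set.mem_ofPred_eq] at hk hk'
    have h2 : k.1 = k'.1 := φ.symm.injective (hk.2.trans hk'.2.symm)
    exact Prod.ext h2 heq
  rw [Finset.prod_congr rfl hx]
  exact Finset.prod_fiberwise_of_maps_to (fun k hk => Finset.mem_image_of_mem _ hk) _

theorem xiG_measurableSet (hsh : ∀ A, MeasurableSet (sh ⁻¹' {A})) (k : V d × Finset (V d)) :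
    MeasurableSet {ω : (X → ℕ) × (X × ℕ → M) | xiG φ sh k ω = false} := by
  have : {ω : (X → ℕ) × (X × ℕ → M) | xiG φ sh k ω = false}
      = ⋂ i : ℕ, ({ω | i < ω.1 (φ.symm k.1)}ᶜ ∪
      {ω | ω.2 (φ.symm k.1, i) ∈ sh ⁻¹' {k.2}}ᶜ) := by
    ext ω
    simp only [Set.mem_ofPred_eq, Set.mem_iInter, Set.mem_union, Set.mem_compl_iff,
      Set.mem_preimage, Set.mem_singleton_iff]
    rw [xiG_false_iff]
    constructor
    · intro h i
      by_cases hi : i < ω.1 (φ.symm k.1)
      · exact Or.inr (h i hi)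
      · exact Or.inl hi
    · intro h i hi
      rcases h i with h1 | h1
      · exact absurd hi h1
      · exact h1
  rw [this]
  refine MeasurableSet.iInter fun i => MeasurableSet.union (MeasurableSet.compl ?_)
    (MeasurableSet.compl ?_)
  · have h1 : Measurable (fun ω : (X → ℕ) × (X × ℕ → M) => ω.1 (φ.symm k.1)) := by fun_prop
    exact h1 (measurableSet_Ioi (a := i))
  · have h1 : Measurable (fun ω : (X → ℕ) × (X × ℕ → M) => ω.2 (φ.symm k.1, i)) := by fun_prop
    exact h1 (hsh k.2)

theorem xiG_measurable (hsh : ∀ A, MeasurableSet (sh ⁻¹' {A})) (k : V d × Finset (V d)) :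
    Measurable (xiG (M := M) φ sh k) := by
  refine measurable_to_bool ?_
  have : xiG (M := M) φ sh k ⁻¹' {true} = {ω | xiG φ sh k ω = false}ᶜ := by
    ext ω; simp
  rw [this]
  exact (xiG_measurableSet φ sh hsh k).compl

theorem xiG_prob [Countable X] (hsh : ∀ A, MeasurableSet (sh ⁻¹' {A})) (v : NNReal) (ρ : Measure M) [IsProbabilityMeasure ρ]
    (k : V d × Finset (V d)) :
    markedLaw X v ρ {ω | xiG φ sh k ω = true}
      = ENNReal.ofReal (1 - Real.exp (-(v * (ρ (sh ⁻¹' {k.2})).toReal))) := by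
  have h1 := absentG φ sh hsh v ρ {k}
  simp only [Finset.mem_singleton, Set.iInter_iInter_eq_left, Finset.prod_singleton] at h1
  have h2 : {ω | xiG (M := M) φ sh k ω = true} = {ω | xiG φ sh k ω = false}ᶜ := by
    ext ω; simp
  rw [h2, prob_compl_eq_one_sub (xiG_measurableSet φ sh hsh k), h1,
    ENNReal.ofReal_sub _ (Real.exp_pos _).le, ENNReal.ofReal_one]

theorem xiG_indep [Countable X] (hsh : ∀ A, MeasurableSet (sh ⁻¹' {A})) (v : NNReal) (ρ : Measure M) [IsProbabilityMeasure ρ] :
    iIndepFun (xiG (M := M) φ sh) (markedLaw X v ρ) := by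
  have h1 : iIndepSet (fun k => {ω | xiG (M := M) φ sh k ω = false}) (markedLaw X v ρ) := by
    rw [iIndepSet_iff_meas_biInter (xiG_measurableSet φ sh hsh)]
    intro J
    rw [absentG φ sh hsh v ρ J]
    refine Finset.prod_congr rfl fun k _ => ?_
    have h2 := absentG φ sh hsh v ρ {k}
    simp only [Finset.mem_singleton, Set.iInter_iInter_eq_left, Finset.prod_singleton] at h2
    exact h2.symm
  have h3 := iIndepSet.iIndepFun_indicator (β := ℕ) (m := Nat.instMeasurableSpace) h1
  have h4 := h3.comp (fun _ n => decide (n = 0)) (fun _ => measurable_from_nat)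
  convert h4 using 1
  funext k ω
  simp only [Function.comp_apply, Set.indicator_apply, Set.mem_ofPred_eq]
  by_cases h : xiG φ sh k ω = false
  · rw [if_pos h, h]; simp
  · rw [if_neg h]
    simpa using h


/-- sum over keys against the law of the marks -/
theorem sum_keysG (hsh : ∀ A, MeasurableSet (sh ⁻¹' {A})) (ρ : Measure M)
    (G : V d × Finset (V d) → ℝ≥0∞) :
    ∑' k : V d × Finset (V d), ρ (sh ⁻¹' {k.2}) * G k
      = ∫⁻ a, ∑' x, G (x, sh a) ∂ρ := by
  letI : MeasurableSpace (Finset (V d)) := ⊤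
  haveI : DiscreteMeasurableSpace (Finset (V d)) := ⟨fun _ => trivial⟩
  have hm : Measurable sh := measurable_to_countable' hsh
  have h2 : ∀ x : V d, ∑' A : Finset (V d), ρ (sh ⁻¹' {A}) * G (x, A)
      = ∫⁻ a, G (x, sh a) ∂ρ := by
    intro x
    have h3 := lintegral_map (μ := ρ) (f := fun A : Finset (V d) => G (x, A)) (g := sh)
      (measurable_from_top) hm
    rw [← h3, lintegral_countable']
    refine tsum_congr fun A => ?_
    rw [Measure.map_apply hm (MeasurableSet.of_discrete), mul_comm]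
  rw [ENNReal.tsum_prod']
  simp_rw [h2]
  rw [lintegral_tsum]
  intro x
  exact ((measurable_from_top (f := fun A : Finset (V d) => G (x, A))).comp hm).aemeasurable

end

end Pool.Agent.V5helper43.PR
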