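import Mathlib

/-!
# Poisson random sticks in the plane: the model

A Poisson process of intensity `t` on the plane is built cell by cell: the numbers of points in the
unit cells are independent Poisson variables of mean `t` and the points are independent and uniform
in their cells.
-/

set_option autoImplicit false
open MeasureTheory ProbabilityTheory
open scoped ENNReal NNReal

namespace Pool.Agent.V5helper43.PR

/-- The data `((U₁, U₂), V, L)` of one stick: its starting point has position `(U₁, U₂)` inside its
unit cell, its direction has angle `2 π V` and its length is `L`. -/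
abbrev Mark : Type := (unitInterval × unitInterval) × unitInterval × ℝ

/-- The sample space. For `ω = (N, h)`, the number of points of the Poisson process in the unit cell
with lower left corner `x` is `N x`, and the `i`-th of them has the data `h (x, i)`. -/
abbrev Sample : Type := (ℤ × ℤ → ℕ) × ((ℤ × ℤ) × ℕ → Mark)

/-- The law of the data of one stick: `U₁`, `U₂`, `V` are uniform on `[0, 1]`, `L` has law `μ` and
the four are independent. -/
noncomputable def oneLaw (μ : Measure ℝ) : Measure Mark :=
  ((volume : Measure unitInterval).prod (volume : Measure unitInterval)).prod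
    ((volume : Measure unitInterval).prod μ)

instance (μ : Measure ℝ) [IsProbabilityMeasure μ] : IsProbabilityMeasure (oneLaw μ) := by
  unfold oneLaw; infer_instance

/-- The law of the Poisson stick process with intensity `t` and length law `μ`: independent Poisson
numbers of mean `t` in the unit cells, and independent data. -/
noncomputable def sticksLaw (t : ℝ≥0) (μ : Measure ℝ) [IsProbabilityMeasure μ] : Measure Sample :=
  (Measure.infinitePi (fun _ : ℤ × ℤ => (poissonPMF t).toMeasure)).prod
    (Measure.infinitePi (fun _ : (ℤ × ℤ) × ℕ => oneLaw μ))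

/-- The stick with data `a` whose starting point lies in the unit cell with lower left corner
`x`: the segment from `p` to `p + L (cos 2πV, sin 2πV)`, where `p = x + (U₁, U₂)`. -/
noncomputable def stick (x : ℤ × ℤ) (a : Mark) : Set (ℝ × ℝ) :=
  {p | ∃ l : ℝ, 0 ≤ l ∧ l ≤ a.2.2 ∧
    p = ((x.1 : ℝ) + (a.1.1 : ℝ) + l * Real.cos (2 * Real.pi * (a.2.1 : ℝ)),
      (x.2 : ℝ) + (a.1.2 : ℝ) + l * Real.sin (2 * Real.pi * (a.2.1 : ℝ)))}

/-- The occupied set: the union of all sticks. -/
def occupied (ω : Sample) : Set (ℝ × ℝ) :=
  {p | ∃ x : ℤ × ℤ, ∃ i : ℕ, i < ω.1 x ∧ p ∈ stick x (ω.2 (x, i))}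

/-- A subset of the plane percolates if it has an unbounded connected component. -/
def Percolates (S : Set (ℝ × ℝ)) : Prop :=
  ∃ p ∈ S, ¬ Bornology.IsBounded (connectedComponentIn S p)

/-- The critical intensity `inf {t > 0 : P (the occupied set percolates) > 0}`, in `[0, ∞]`. -/
noncomputable def critical (μ : Measure ℝ) [IsProbabilityMeasure μ] : ℝ≥0∞ :=
  ⨅ t : {t : ℝ≥0 // 0 < t ∧ 0 < sticksLaw t μ {ω | Percolates (occupied ω)}}, ((t : ℝ≥0) : ℝ≥0∞)

end Pool.Agent.V5helper43.PR
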