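import Mathlib

/-!
# A multiscale proof of percolation for dense independent coarse sites

A coarse site of level `k + 1` is a `3 × 3` array of coarse sites of level `k`; it is good if at
most one of the nine is not good.
-/

set_option autoImplicit false
open MeasureTheory
open scoped ENNReal BigOperators

namespace Pool.Agent.V5helper43.PR

noncomputable section

/-! ### Probability -/

section Prob

variable {Ω : Type*} [MeasurableSpace Ω]

/-- every finite subfamily of `n` of the events occurs with probability at most `p ^ n` -/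
def Dp {ι : Type*} (P : Measure Ω) (B : ι → Set Ω) (p : ℝ≥0∞) : Prop :=
  ∀ W : Finset ι, P (⋂ z ∈ W, B z) ≤ p ^ W.card

theorem Dp.single {ι : Type*} {P : Measure Ω} {B : ι → Set Ω} {p : ℝ≥0∞} (h : Dp P B p) (z : ι) :
    P (B z) ≤ p := by
  have := h {z}
  simpa using this

theorem Dp.mono {ι : Type*} {P : Measure Ω} {B : ι → Set Ω} {p q : ℝ≥0∞} (h : Dp P B p)
    (hpq : p ≤ q) : Dp P B q := fun W => (h W).trans (by gcongr)

theorem Dp_step {ι κ C : Type*} (P : Measure Ω) (B : ι → Set Ω) (p : ℝ≥0∞) (Ch : Finset C)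
    (T : κ → C → Finset ι) (k : ℕ) (hcard : ∀ z, ∀ c ∈ Ch, (T z c).card = k)
    (hdisj : ∀ z z' c c', z ≠ z' → Disjoint (T z c) (T z' c'))
    (B' : κ → Set Ω) (hB' : ∀ z, B' z ⊆ ⋃ c ∈ Ch, ⋂ w ∈ T z c, B w) (h : Dp P B p) :
    Dp P B' (Ch.card * p ^ k) := by
  classical
  have key : ∀ (W : Finset κ) (S : Finset ι), (∀ z ∈ W, ∀ c, Disjoint (T z c) S) →
      P ((⋂ z ∈ W, B' z) ∩ ⋂ w ∈ S, B w) ≤ (Ch.card * p ^ k) ^ W.card * p ^ S.card := by
    intro W
    induction W using Finset.induction_on with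
    | empty =>
      intro S _
      simpa using h S
    | insert z0 W hz0 ih =>
      intro S hS
      have hsub : (⋂ z ∈ insert z0 W, B' z) ∩ ⋂ w ∈ S, B w
          ⊆ ⋃ c ∈ Ch, ((⋂ z ∈ W, B' z) ∩ ⋂ w ∈ S ∪ T z0 c, B w) := by
        rintro ω ⟨h1, h2⟩
        simp only [Set.mem_iInter] at h1 h2
        have h3 := hB' z0 (h1 z0 (Finset.mem_insert_self _ _))
        simp only [Set.mem_iUnion, Set.mem_iInter] at h3
        obtain ⟨c, hc, h3⟩ := h3
        simp only [Set.mem_iUnion, Set.mem_inter_iff, Set.mem_iInter]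
        refine ⟨c, hc, fun z hz => h1 z (Finset.mem_insert_of_mem hz), fun w hw => ?_⟩
        rcases Finset.mem_union.mp hw with hw | hw
        · exact h2 w hw
        · exact h3 w hw
      refine (measure_mono hsub).trans ((measure_biUnion_finset_le _ _).trans ?_)
      have hterm : ∀ c ∈ Ch, P ((⋂ z ∈ W, B' z) ∩ ⋂ w ∈ S ∪ T z0 c, B w)
          ≤ (Ch.card * p ^ k) ^ W.card * p ^ (S.card + k) := by
        intro c hc
        refine (ih (S ∪ T z0 c) ?_).trans (le_of_eq ?_)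
        · intro z hz c'
          rw [Finset.disjoint_union_right]
          refine ⟨hS z (Finset.mem_insert_of_mem hz) c', hdisj z z0 c' c ?_⟩
          rintro rfl
          exact hz0 hz
        · rw [Finset.card_union_of_disjoint (hS z0 (Finset.mem_insert_self _ _) c).symm,
            hcard z0 c hc]
      refine (Finset.sum_le_sum hterm).trans (le_of_eq ?_)
      rw [Finset.sum_const, nsmul_eq_mul, Finset.card_insert_of_notMem hz0]
      ring
  intro W
  have := key W ∅ (by simp)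
  simpa using this

end Prob

/-! ### Good coarse sites -/

/-- the nine coarse sites inside a coarse site of the next level -/
def sb (z : ℤ × ℤ) (i : Fin 3 × Fin 3) : ℤ × ℤ :=
  (3 * z.1 + ((i.1 : ℕ) : ℤ), 3 * z.2 + ((i.2 : ℕ) : ℤ))

theorem sb_inj {z z' : ℤ × ℤ} {i j : Fin 3 × Fin 3} (h : sb z i = sb z' j) : z = z' ∧ i = j := by
  obtain ⟨z1, z2⟩ := z
  obtain ⟨w1, w2⟩ := z'
  obtain ⟨a, b⟩ := i
  obtain ⟨c, d⟩ := j
  unfold sb at h
  simp only [Prod.mk.injEq] at h ⊢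
  have ha := a.2
  have hb := b.2
  have hc := c.2
  have hd := d.2
  refine ⟨⟨by omega, by omega⟩, Fin.ext (by omega), Fin.ext (by omega)⟩

/-- good coarse sites of level `k` -/
def Gd (g : ℤ × ℤ → Prop) : ℕ → ℤ × ℤ → Prop
  | 0, z => g z
  | k + 1, z => ∀ i j : Fin 3 × Fin 3, i ≠ j → Gd g k (sb z i) ∨ Gd g k (sb z j)

/-- the union of the clusters of the good coarse sites -/
def Cl (g : ℤ × ℤ → Prop) (C0 : ℤ × ℤ → Set (ℝ × ℝ)) : ℕ → ℤ × ℤ → Set (ℝ × ℝ)
  | 0, z => C0 z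
  | k + 1, z => ⋃ i ∈ {i : Fin 3 × Fin 3 | Gd g k (sb z i)}, Cl g C0 k (sb z i)

/-- the bound for the probability that a coarse site is not good -/
def aq (p : ℝ≥0∞) : ℕ → ℝ≥0∞
  | 0 => p
  | k + 1 => 72 * (aq p k) ^ 2

theorem Dp_Gd {Ω : Type*} [MeasurableSpace Ω] (P : Measure Ω) (g : Ω → ℤ × ℤ → Prop) (p : ℝ≥0∞)
    (h : Dp P (fun z => {ω | ¬ g ω z}) p) (k : ℕ) :
    Dp P (fun z => {ω | ¬ Gd (g ω) k z}) (aq p k) := by
  classical
  induction k with
  | zero => exact h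
  | succ k ih =>
    have hcardCh : ((Finset.univ : Finset (Fin 3 × Fin 3)).offDiag).card = 72 := by
      rw [Finset.offDiag_card]
      simp
    have h1 := Dp_step P (fun z => {ω | ¬ Gd (g ω) k z}) (aq p k)
      ((Finset.univ : Finset (Fin 3 × Fin 3)).offDiag)
      (fun z c => {sb z c.1, sb z c.2}) 2 ?_ ?_ (fun z => {ω | ¬ Gd (g ω) (k + 1) z}) ?_ ih
    · rw [hcardCh] at h1
      exact h1
    · rintro z ⟨i, j⟩ hc
      rw [Finset.mem_offDiag] at hc
      refine Finset.card_pair fun h => hc.2.2 ?_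
      exact (sb_inj h).2
    · rintro z z' ⟨i, j⟩ ⟨i', j'⟩ hz
      rw [Finset.disjoint_left]
      intro w hw hw'
      simp only [Finset.mem_insert, Finset.mem_singleton] at hw hw'
      rcases hw with rfl | rfl <;> rcases hw' with h | h <;> exact hz (sb_inj h).1
    · intro z ω hω
      simp only [Set.mem_ofPred_eq, Gd, not_forall, not_or] at hω
      obtain ⟨i, j, hij, h2, h3⟩ := hω
      simp only [Set.mem_iUnion, Set.mem_iInter, Finset.mem_insert, Finset.mem_singleton]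
      refine ⟨(i, j), by simp [hij], ?_⟩
      rintro w (rfl | rfl)
      · exact h2
      · exact h3

theorem aq_le (p : ℝ≥0∞) (hp : p ≤ ENNReal.ofReal (1 / 288)) (k : ℕ) :
    aq p k ≤ ENNReal.ofReal (1 / 288 * (1 / 4) ^ k) := by
  induction k with
  | zero => simpa [aq] using hp
  | succ k ih =>
    unfold aq
    calc 72 * (aq p k) ^ 2 ≤ 72 * (ENNReal.ofReal (1 / 288 * (1 / 4) ^ k)) ^ 2 := by gcongr
      _ = ENNReal.ofReal (72 * (1 / 288 * (1 / 4) ^ k) ^ 2) := by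
          rw [ENNReal.ofReal_mul (by norm_num), ENNReal.ofReal_pow (by positivity)]
          norm_num
      _ ≤ _ := by
          refine ENNReal.ofReal_le_ofReal ?_
          have h1 : ((1 : ℝ) / 4) ^ k ≤ 1 := pow_le_one₀ (by norm_num) (by norm_num)
          have h2 : (0 : ℝ) < (1 / 4) ^ k := by positivity
          have h3 : ((1 : ℝ) / 4) ^ k * (1 / 4) ^ k ≤ (1 / 4) ^ k * 1 :=
            mul_le_mul_of_nonneg_left h1 h2.le
          have h4 : (1 : ℝ) / 288 * (1 / 4) ^ (k + 1) = 1 / 288 * (1 / 4) * (1 / 4) ^ k := by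
            rw [pow_succ]; ring
          have h5 : (72 : ℝ) * (1 / 288 * (1 / 4) ^ k) ^ 2
              = 72 / 288 / 288 * ((1 / 4) ^ k * (1 / 4) ^ k) := by ring
          rw [h4, h5]
          linarith

/-- with positive probability all coarse sites at the origin are good -/
theorem all_good_pos {Ω : Type*} [MeasurableSpace Ω] (P : Measure Ω) [IsProbabilityMeasure P]
    (g : Ω → ℤ × ℤ → Prop) (p : ℝ≥0∞) (hp : p ≤ ENNReal.ofReal (1 / 288))
    (h : Dp P (fun z => {ω | ¬ g ω z}) p) :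
    0 < P {ω | ∀ k, Gd (g ω) k 0} := by
  have h1 : P {ω | ∀ k, Gd (g ω) k 0}ᶜ ≤ ENNReal.ofReal (1 / 2) := by
    have hs : {ω | ∀ k, Gd (g ω) k 0}ᶜ ⊆ ⋃ k, {ω | ¬ Gd (g ω) k 0} := by
      intro ω hω
      simpa using hω
    refine (measure_mono hs).trans ((measure_iUnion_le _).trans ?_)
    calc ∑' k, P {ω | ¬ Gd (g ω) k 0} ≤ ∑' k : ℕ, ENNReal.ofReal (1 / 288 * (1 / 4) ^ k) :=
          ENNReal.tsum_le_tsum fun k => ((Dp_Gd P g p h k).single 0).trans (aq_le p hp k)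
      _ = ENNReal.ofReal (∑' k : ℕ, (1 / 288 * (1 / 4) ^ k : ℝ)) := by
          rw [ENNReal.ofReal_tsum_of_nonneg (fun k => by positivity)]
          exact (summable_geometric_of_lt_one (by norm_num) (by norm_num)).mul_left _
      _ ≤ _ := by
          refine ENNReal.ofReal_le_ofReal ?_
          rw [tsum_mul_left, tsum_geometric_of_lt_one (by norm_num) (by norm_num)]
          norm_num
  by_contra h0
  push Not at h0
  have h2 : P {ω | ∀ k, Gd (g ω) k 0} = 0 := le_antisymm h0 zero_le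
  have h3 : (1 : ℝ≥0∞) ≤ P {ω | ∀ k, Gd (g ω) k 0} + P {ω | ∀ k, Gd (g ω) k 0}ᶜ := by
    rw [← measure_univ (μ := P)]
    calc P Set.univ = P ({ω | ∀ k, Gd (g ω) k 0} ∪ {ω | ∀ k, Gd (g ω) k 0}ᶜ) := by
          rw [Set.union_compl_self]
      _ ≤ _ := measure_union_le _ _
  rw [h2, zero_add] at h3
  have h4 := h3.trans h1
  rw [ENNReal.one_le_ofReal] at h4
  norm_num at h4

/-! ### Connectivity -/

section Conn

variable (g : ℤ × ℤ → Prop) (C0 : ℤ × ℤ → Set (ℝ × ℝ))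

theorem sb_right (z : ℤ × ℤ) (t : Fin 3) : sb (z + (1, 0)) (0, t) = sb z (2, t) + (1, 0) := by
  unfold sb
  ext <;> simp
  ring

theorem sb_up (z : ℤ × ℤ) (t : Fin 3) : sb (z + (0, 1)) (t, 0) = sb z (t, 2) + (0, 1) := by
  unfold sb
  ext <;> simp
  ring

theorem maj {a0 a1 a2 b0 b1 b2 : Prop} (h1 : a0 ∨ a1) (h2 : a0 ∨ a2) (h3 : a1 ∨ a2)
    (h4 : b0 ∨ b1) (h5 : b0 ∨ b2) (h6 : b1 ∨ b2) :
    (a0 ∧ b0) ∨ (a1 ∧ b1) ∨ (a2 ∧ b2) := by tauto

theorem meet_right (h0 : ∀ z, g z → g (z + (1, 0)) → (C0 z ∩ C0 (z + (1, 0))).Nonempty) (k : ℕ) :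
    ∀ z, Gd g k z → Gd g k (z + (1, 0)) →
      (Cl g C0 k z ∩ Cl g C0 k (z + (1, 0))).Nonempty := by
  induction k with
  | zero => exact h0
  | succ k ih =>
    intro z hz hz'
    have hcomb : ∃ t : Fin 3, Gd g k (sb z (2, t)) ∧ Gd g k (sb (z + (1, 0)) (0, t)) := by
      rcases maj (hz (2, 0) (2, 1) (by decide)) (hz (2, 0) (2, 2) (by decide))
        (hz (2, 1) (2, 2) (by decide)) (hz' (0, 0) (0, 1) (by decide))
        (hz' (0, 0) (0, 2) (by decide)) (hz' (0, 1) (0, 2) (by decide)) with h | h | h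
      · exact ⟨0, h⟩
      · exact ⟨1, h⟩
      · exact ⟨2, h⟩
    obtain ⟨t, h1, h2⟩ := hcomb
    have h3 := h2
    rw [sb_right] at h3
    obtain ⟨p, hp1, hp2⟩ := ih (sb z (2, t)) h1 h3
    refine ⟨p, ?_, ?_⟩
    · exact Set.mem_biUnion (x := ((2, t) : Fin 3 × Fin 3)) h1 hp1
    · rw [← sb_right] at hp2
      exact Set.mem_biUnion (x := ((0, t) : Fin 3 × Fin 3)) h2 hp2

theorem meet_up (h0 : ∀ z, g z → g (z + (0, 1)) → (C0 z ∩ C0 (z + (0, 1))).Nonempty) (k : ℕ) :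
    ∀ z, Gd g k z → Gd g k (z + (0, 1)) →
      (Cl g C0 k z ∩ Cl g C0 k (z + (0, 1))).Nonempty := by
  induction k with
  | zero => exact h0
  | succ k ih =>
    intro z hz hz'
    have hcomb : ∃ t : Fin 3, Gd g k (sb z (t, 2)) ∧ Gd g k (sb (z + (0, 1)) (t, 0)) := by
      rcases maj (hz (0, 2) (1, 2) (by decide)) (hz (0, 2) (2, 2) (by decide))
        (hz (1, 2) (2, 2) (by decide)) (hz' (0, 0) (1, 0) (by decide))
        (hz' (0, 0) (2, 0) (by decide)) (hz' (1, 0) (2, 0) (by decide)) with h | h | h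
      · exact ⟨0, h⟩
      · exact ⟨1, h⟩
      · exact ⟨2, h⟩
    obtain ⟨t, h1, h2⟩ := hcomb
    have h3 := h2
    rw [sb_up] at h3
    obtain ⟨p, hp1, hp2⟩ := ih (sb z (t, 2)) h1 h3
    refine ⟨p, ?_, ?_⟩
    · exact Set.mem_biUnion (x := ((t, 2) : Fin 3 × Fin 3)) h1 hp1
    · rw [← sb_up] at hp2
      exact Set.mem_biUnion (x := ((t, 0) : Fin 3 × Fin 3)) h2 hp2

/-- the step relation inside a three by three array -/
def adj3 (i j : Fin 3 × Fin 3) : Prop :=
  (i.2 = j.2 ∧ ((i.1 : ℕ) + 1 = j.1 ∨ (j.1 : ℕ) + 1 = i.1)) ∨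
  (i.1 = j.1 ∧ ((i.2 : ℕ) + 1 = j.2 ∨ (j.2 : ℕ) + 1 = i.2))

theorem row_conn (t : Set (Fin 3 × Fin 3)) (y : Fin 3) (h : ∀ x, (x, y) ∈ t) (x x' : Fin 3) :
    Relation.ReflTransGen (fun i j => adj3 i j ∧ i ∈ t ∧ j ∈ t) (x, y) (x', y) := by
  have s01 : Relation.ReflTransGen (fun i j => adj3 i j ∧ i ∈ t ∧ j ∈ t) (0, y) (1, y) :=
    Relation.ReflTransGen.single ⟨by simp [adj3], h 0, h 1⟩
  have s12 : Relation.ReflTransGen (fun i j => adj3 i j ∧ i ∈ t ∧ j ∈ t) (1, y) (2, y) :=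
    Relation.ReflTransGen.single ⟨by simp [adj3], h 1, h 2⟩
  have s10 : Relation.ReflTransGen (fun i j => adj3 i j ∧ i ∈ t ∧ j ∈ t) (1, y) (0, y) :=
    Relation.ReflTransGen.single ⟨by simp [adj3], h 1, h 0⟩
  have s21 : Relation.ReflTransGen (fun i j => adj3 i j ∧ i ∈ t ∧ j ∈ t) (2, y) (1, y) :=
    Relation.ReflTransGen.single ⟨by simp [adj3], h 2, h 1⟩
  fin_cases x <;> fin_cases x'
  · exact Relation.ReflTransGen.refl
  · exact s01
  · exact s01.trans s12
  · exact s10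
  · exact Relation.ReflTransGen.refl
  · exact s12
  · exact s21.trans s10
  · exact s21
  · exact Relation.ReflTransGen.refl

theorem col_conn (t : Set (Fin 3 × Fin 3)) (x : Fin 3) (h : ∀ y, (x, y) ∈ t) (y y' : Fin 3) :
    Relation.ReflTransGen (fun i j => adj3 i j ∧ i ∈ t ∧ j ∈ t) (x, y) (x, y') := by
  have s01 : Relation.ReflTransGen (fun i j => adj3 i j ∧ i ∈ t ∧ j ∈ t) (x, 0) (x, 1) :=
    Relation.ReflTransGen.single ⟨by simp [adj3], h 0, h 1⟩
  have s12 : Relation.ReflTransGen (fun i j => adj3 i j ∧ i ∈ t ∧ j ∈ t) (x, 1) (x, 2) :=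
    Relation.ReflTransGen.single ⟨by simp [adj3], h 1, h 2⟩
  have s10 : Relation.ReflTransGen (fun i j => adj3 i j ∧ i ∈ t ∧ j ∈ t) (x, 1) (x, 0) :=
    Relation.ReflTransGen.single ⟨by simp [adj3], h 1, h 0⟩
  have s21 : Relation.ReflTransGen (fun i j => adj3 i j ∧ i ∈ t ∧ j ∈ t) (x, 2) (x, 1) :=
    Relation.ReflTransGen.single ⟨by simp [adj3], h 2, h 1⟩
  fin_cases y <;> fin_cases y'
  · exact Relation.ReflTransGen.refl
  · exact s01
  · exact s01.trans s12
  · exact s10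
  · exact Relation.ReflTransGen.refl
  · exact s12
  · exact s21.trans s10
  · exact s21
  · exact Relation.ReflTransGen.refl

/-- a three by three array with one removed site is connected -/
theorem conn3 (t : Set (Fin 3 × Fin 3)) (b : Fin 3 × Fin 3) (h : ∀ i, i ≠ b → i ∈ t)
    (i j : Fin 3 × Fin 3) (hi : i ≠ b) (hj : j ≠ b) :
    Relation.ReflTransGen (fun i j => adj3 i j ∧ i ∈ t ∧ j ∈ t) i j := by
  obtain ⟨b1, b2⟩ := b
  obtain ⟨c1, hc1⟩ : ∃ c : Fin 3, c ≠ b1 := by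
    by_cases hb : b1 = 0
    · exact ⟨1, by rw [hb]; decide⟩
    · exact ⟨0, fun h => hb h.symm⟩
  obtain ⟨c2, hc2⟩ : ∃ c : Fin 3, c ≠ b2 := by
    by_cases hb : b2 = 0
    · exact ⟨1, by rw [hb]; decide⟩
    · exact ⟨0, fun h => hb h.symm⟩
  have hrow : ∀ y, y ≠ b2 → ∀ x, (x, y) ∈ t := fun y hy x => h _ fun he => hy (congrArg Prod.snd he)
  have hcol : ∀ x, x ≠ b1 → ∀ y, (x, y) ∈ t := fun x hx y => h _ fun he => hx (congrArg Prod.fst he)
  have hto : ∀ i : Fin 3 × Fin 3, i ≠ (b1, b2) →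
      Relation.ReflTransGen (fun i j => adj3 i j ∧ i ∈ t ∧ j ∈ t) i (c1, c2) ∧
      Relation.ReflTransGen (fun i j => adj3 i j ∧ i ∈ t ∧ j ∈ t) (c1, c2) i := by
    rintro ⟨x, y⟩ hne
    by_cases hy : y = b2
    · have hx : x ≠ b1 := fun hx => hne (by rw [hx, hy])
      exact ⟨(col_conn t x (hcol x hx) y c2).trans (row_conn t c2 (hrow c2 hc2) x c1),
        (row_conn t c2 (hrow c2 hc2) c1 x).trans (col_conn t x (hcol x hx) c2 y)⟩
    · exact ⟨(row_conn t y (hrow y hy) x c1).trans (col_conn t c1 (hcol c1 hc1) y c2),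
        (col_conn t c1 (hcol c1 hc1) c2 y).trans (row_conn t y (hrow y hy) c1 x)⟩
  exact (hto i hi).1.trans (hto j hj).2

theorem exists_third (i j : Fin 3 × Fin 3) : ∃ b, i ≠ b ∧ j ≠ b := by
  revert i j
  decide

theorem sb_succ1 (z : ℤ × ℤ) (x x' y : Fin 3) (h : (x : ℕ) + 1 = x') :
    sb z (x', y) = sb z (x, y) + (1, 0) := by
  unfold sb
  ext
  · simp only [Prod.fst_add]
    rw [← h]
    push_cast
    ring
  · simp

theorem sb_succ2 (z : ℤ × ℤ) (x y y' : Fin 3) (h : (y : ℕ) + 1 = y') :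
    sb z (x, y') = sb z (x, y) + (0, 1) := by
  unfold sb
  ext
  · simp
  · simp only [Prod.snd_add]
    rw [← h]
    push_cast
    ring

theorem Cl_preconn (hc : ∀ z, g z → IsPreconnected (C0 z))
    (hr : ∀ z, g z → g (z + (1, 0)) → (C0 z ∩ C0 (z + (1, 0))).Nonempty)
    (hu : ∀ z, g z → g (z + (0, 1)) → (C0 z ∩ C0 (z + (0, 1))).Nonempty) (k : ℕ) :
    ∀ z, Gd g k z → IsPreconnected (Cl g C0 k z) := by
  induction k with
  | zero => exact hc
  | succ k ih =>
    intro z hz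
    show IsPreconnected (⋃ i ∈ {i : Fin 3 × Fin 3 | Gd g k (sb z i)}, Cl g C0 k (sb z i))
    refine IsPreconnected.biUnion_of_reflTransGen (fun i hi => ih _ hi) ?_
    intro i hi j hj
    obtain ⟨b, hb, hbi, hbj⟩ : ∃ b : Fin 3 × Fin 3,
        (∀ l, l ≠ b → l ∈ {i : Fin 3 × Fin 3 | Gd g k (sb z i)}) ∧ i ≠ b ∧ j ≠ b := by
      by_cases hall : ∀ l, Gd g k (sb z l)
      · obtain ⟨b, h1, h2⟩ := exists_third i j
        exact ⟨b, fun l _ => hall l, h1, h2⟩
      · push Not at hall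
        obtain ⟨b, hb⟩ := hall
        refine ⟨b, fun l hl => ?_, ?_, ?_⟩
        · exact (hz l b hl).resolve_right hb
        · rintro rfl
          exact hb hi
        · rintro rfl
          exact hb hj
    refine Relation.ReflTransGen.mono ?_ _ _ (conn3 _ b hb i j hbi hbj)
    rintro ⟨x, y⟩ ⟨x', y'⟩ ⟨hadj, h1, h2⟩
    refine ⟨?_, h1⟩
    rcases hadj with ⟨he, hs⟩ | ⟨he, hs⟩
    · simp only at he
      subst he
      rcases hs with hs | hs
      · have h3 := sb_succ1 z x x' y hs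
        have h4 : Gd g k (sb z (x', y)) := h2
        rw [h3] at h4
        have h5 := meet_right g C0 hr k (sb z (x, y)) h1 h4
        rw [← h3] at h5
        exact h5
      · have h3 := sb_succ1 z x' x y hs
        have h4 : Gd g k (sb z (x, y)) := h1
        rw [h3] at h4
        have h5 := meet_right g C0 hr k (sb z (x', y)) h2 h4
        rw [← h3, Set.inter_comm] at h5
        exact h5
    · simp only at he
      subst he
      rcases hs with hs | hs
      · have h3 := sb_succ2 z x y y' hs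
        have h4 : Gd g k (sb z (x, y')) := h2
        rw [h3] at h4
        have h5 := meet_up g C0 hu k (sb z (x, y)) h1 h4
        rw [← h3] at h5
        exact h5
      · have h3 := sb_succ2 z x y' y hs
        have h4 : Gd g k (sb z (x, y)) := h1
        rw [h3] at h4
        have h5 := meet_up g C0 hu k (sb z (x, y')) h2 h4
        rw [← h3, Set.inter_comm] at h5
        exact h5

theorem Cl_nonempty (hne : ∀ z, g z → (C0 z).Nonempty) (k : ℕ) :
    ∀ z, Gd g k z → (Cl g C0 k z).Nonempty := by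
  induction k with
  | zero => exact hne
  | succ k ih =>
    intro z hz
    rcases hz (0, 0) (0, 1) (by decide) with h | h
    · obtain ⟨p, hp⟩ := ih _ h
      exact ⟨p, Set.mem_biUnion (x := ((0, 0) : Fin 3 × Fin 3)) h hp⟩
    · obtain ⟨p, hp⟩ := ih _ h
      exact ⟨p, Set.mem_biUnion (x := ((0, 1) : Fin 3 × Fin 3)) h hp⟩

theorem Cl_left (B : ℝ) (hB : 0 ≤ B) (hx : ∀ z, g z → ∀ p ∈ C0 z, B * z.1 ≤ p.1) (k : ℕ) :
    ∀ z, Gd g k z → ∀ p ∈ Cl g C0 k z, B * (3 ^ k * z.1) ≤ p.1 := by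
  induction k with
  | zero =>
    intro z hz p hp
    have := hx z hz p hp
    simpa using this
  | succ k ih =>
    intro z hz p hp
    simp only [Cl, Set.mem_iUnion] at hp
    obtain ⟨i, hi, hp⟩ := hp
    refine le_trans ?_ (ih _ hi p hp)
    refine mul_le_mul_of_nonneg_left ?_ hB
    rw [pow_succ, mul_assoc]
    refine mul_le_mul_of_nonneg_left ?_ (by positivity)
    unfold sb
    push_cast
    have : (0 : ℝ) ≤ ((i.1 : ℕ) : ℝ) := by positivity
    linarith

theorem Cl_sub (k : ℕ) : ∀ z, Gd g k z → Cl g C0 k z ⊆ ⋃ z ∈ {z | g z}, C0 z := by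
  induction k with
  | zero =>
    intro z hz p hp
    exact Set.mem_biUnion (x := z) hz hp
  | succ k ih =>
    intro z _ p hp
    simp only [Cl, Set.mem_iUnion] at hp
    obtain ⟨i, hi, hp⟩ := hp
    exact ih _ hi hp

/-- if all coarse sites at the origin are good there is an unbounded connected set -/
theorem exists_unbounded (B : ℝ) (hB : 0 < B) (hc : ∀ z, g z → IsPreconnected (C0 z))
    (hne : ∀ z, g z → (C0 z).Nonempty)
    (hr : ∀ z, g z → g (z + (1, 0)) → (C0 z ∩ C0 (z + (1, 0))).Nonempty)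
    (hu : ∀ z, g z → g (z + (0, 1)) → (C0 z ∩ C0 (z + (0, 1))).Nonempty)
    (hx : ∀ z, g z → ∀ p ∈ C0 z, B * z.1 ≤ p.1) (hG : ∀ k, Gd g k 0) :
    ∃ U : Set (ℝ × ℝ), U.Nonempty ∧ IsPreconnected U ∧ ¬ Bornology.IsBounded U ∧
      U ⊆ ⋃ z ∈ {z | g z}, C0 z := by
  have h00 : sb 0 (0, 0) = 0 := by simp [sb]
  have hmono : ∀ k, Cl g C0 k 0 ⊆ Cl g C0 (k + 1) 0 := by
    intro k p hp
    have h1 : Gd g k (sb 0 (0, 0)) := by rw [h00]; exact hG k
    refine Set.mem_biUnion (x := ((0, 0) : Fin 3 × Fin 3)) h1 ?_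
    rw [h00]
    exact hp
  have hmono' : Monotone fun k => Cl g C0 k 0 := monotone_nat_of_le_succ hmono
  obtain ⟨p0, hp0⟩ := hne 0 (hG 0)
  refine ⟨⋃ k, Cl g C0 k 0, ⟨p0, Set.mem_iUnion.mpr ⟨0, hp0⟩⟩, ?_, ?_, ?_⟩
  · exact isPreconnected_iUnion ⟨p0, Set.mem_iInter.mpr fun k => hmono' (Nat.zero_le k) hp0⟩
      fun k => Cl_preconn g C0 hc hr hu k 0 (hG k)
  · intro hbdd
    obtain ⟨R, hR⟩ := hbdd.subset_closedBall (0 : ℝ × ℝ)
    obtain ⟨k, hk⟩ := pow_unbounded_of_one_lt (R / B) (by norm_num : (1 : ℝ) < 3)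
    have h1 : ∃ i : Fin 3 × Fin 3, (i.1 : ℕ) = 2 ∧ Gd g k (sb 0 i) := by
      rcases hG (k + 1) (2, 0) (2, 1) (by decide) with h | h
      · exact ⟨(2, 0), rfl, h⟩
      · exact ⟨(2, 1), rfl, h⟩
    obtain ⟨i, hi2, hi⟩ := h1
    obtain ⟨p, hp⟩ := Cl_nonempty g C0 hne k _ hi
    have h2 := Cl_left g C0 B hB.le hx k _ hi p hp
    have h3 : p ∈ Cl g C0 (k + 1) 0 := Set.mem_biUnion (x := i) hi hp
    have h4 := hR (Set.mem_iUnion.mpr ⟨k + 1, h3⟩)
    rw [Metric.mem_closedBall, dist_zero_right] at h4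
    have h5 : |p.1| ≤ ‖p‖ := by
      have := norm_fst_le p
      simpa using this
    have h6 : p.1 ≤ R := (le_abs_self _).trans (h5.trans h4)
    rw [div_lt_iff₀ hB] at hk
    have h7 : (((sb 0 i).1 : ℤ) : ℝ) = 2 := by
      unfold sb
      simp [hi2]
    rw [h7] at h2
    have h8 : (0 : ℝ) < B * 3 ^ k := by positivity
    nlinarith
  · intro p hp
    obtain ⟨k, hk⟩ := Set.mem_iUnion.mp hp
    exact Cl_sub g C0 k 0 (hG k) hk

end Conn

end

end Pool.Agent.V5helper43.PR
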