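import Mathlib
import Pool.Agent.V5helper43.PR.Multi
import Pool.Agent.V5helper43.PR.Avoid
import Pool.Agent.V5helper43.PR.Model

/-!
# Percolation of sticks at every intensity when `r ^ 2 P (L ≥ r)` is unbounded
-/

set_option autoImplicit false
open MeasureTheory ProbabilityTheory
open scoped ENNReal NNReal

namespace Pool.Agent.V5helper43.PR

open Pool.Agent.R958.Animal

noncomputable section

/-- a nearly horizontal and a nearly vertical stick meet -/
theorem meet_alg (m x0 y0 u0 v0 c s c' s' L L' : ℝ) (hm : 0 < m)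
    (hc : 31 / 32 ≤ c) (hc1 : c ≤ 1) (hs : 0 ≤ s) (hs1 : s ≤ 1 / 32)
    (hc' : 31 / 32 ≤ c') (hc1' : c' ≤ 1) (hs' : 0 ≤ s') (hs1' : s' ≤ 1 / 32)
    (ha0 : 0 ≤ u0 - x0) (ha1 : u0 - x0 ≤ 20 * m) (hb0 : 0 ≤ y0 - v0) (hb1 : y0 - v0 ≤ 20 * m)
    (hL : 40 * m ≤ L) (hL' : 40 * m ≤ L') :
    ∃ l k : ℝ, 0 ≤ l ∧ l ≤ L ∧ 0 ≤ k ∧ k ≤ L' ∧ x0 + l * c = u0 + k * s' ∧
      y0 + l * s = v0 + k * c' := by
  set a := u0 - x0 with ha
  set b := y0 - v0 with hb
  set D := c * c' - s * s' with hD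
  have h1 : 15 / 16 ≤ D := by
    have h2 : (31 / 32) * (31 / 32) ≤ c * c' := mul_le_mul hc hc' (by norm_num) (by linarith)
    have h3 : s * s' ≤ (1 / 32) * (1 / 32) := mul_le_mul hs1 hs1' hs' (by norm_num)
    rw [hD]
    linarith
  have hD0 : 0 < D := by linarith
  have e1 : a * c' ≤ 20 * m := by
    calc a * c' ≤ a * 1 := mul_le_mul_of_nonneg_left hc1' ha0
      _ ≤ 20 * m := by linarith
  have e2 : b * c ≤ 20 * m := by
    calc b * c ≤ b * 1 := mul_le_mul_of_nonneg_left hc1 hb0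
      _ ≤ 20 * m := by linarith
  have e3 : a * s ≤ 20 * m * (1 / 32) := mul_le_mul ha1 hs1 hs (by linarith)
  have e4 : b * s' ≤ 20 * m * (1 / 32) := mul_le_mul hb1 hs1' hs' (by linarith)
  have n1 : 0 ≤ a * c' := mul_nonneg ha0 (by linarith)
  have n2 : 0 ≤ b * c := mul_nonneg hb0 (by linarith)
  have n3 : 0 ≤ a * s := mul_nonneg ha0 hs
  have n4 : 0 ≤ b * s' := mul_nonneg hb0 hs'
  refine ⟨(a * c' + b * s') / D, (b * c + a * s) / D, by positivity, ?_, by positivity, ?_, ?_, ?_⟩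
  · rw [div_le_iff₀ hD0]
    have : 40 * m * (15 / 16) ≤ L * D := mul_le_mul hL h1 (by norm_num) (by linarith)
    linarith
  · rw [div_le_iff₀ hD0]
    have : 40 * m * (15 / 16) ≤ L' * D := mul_le_mul hL' h1 (by norm_num) (by linarith)
    linarith
  · have h5 : u0 = a + x0 := by rw [ha]; ring
    rw [h5]
    field_simp
    rw [hD]
    ring
  · have h5 : y0 = b + v0 := by rw [hb]; ring
    rw [h5]
    field_simp
    rw [hD]
    ring

/-- the angles used -/
def Ang (b : Bool) : Set unitInterval :=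
  if b then Set.Ioo ⟨249 / 1000, by norm_num, by norm_num⟩ ⟨250 / 1000, by norm_num, by norm_num⟩
  else Set.Ioo ⟨0, by norm_num, by norm_num⟩ ⟨1 / 1000, by norm_num, by norm_num⟩

theorem Ang_meas (b : Bool) : MeasurableSet (Ang b) := by
  unfold Ang
  split_ifs <;> exact measurableSet_Ioo

theorem Ang_vol (b : Bool) : (volume : Measure unitInterval) (Ang b) = ENNReal.ofReal (1 / 1000) := by
  unfold Ang
  split_ifs
  · rw [unitInterval.volume_Ioo]
    norm_num
  · rw [unitInterval.volume_Ioo]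
    norm_num

theorem small_trig (x : ℝ) (h0 : 0 < x) (h1 : x < 1 / 100) :
    31 / 32 ≤ Real.cos x ∧ 0 ≤ Real.sin x ∧ Real.sin x ≤ 1 / 32 := by
  refine ⟨?_, ?_, ?_⟩
  · have := Real.one_sub_sq_div_two_le_cos (x := x)
    nlinarith
  · exact Real.sin_nonneg_of_nonneg_of_le_pi h0.le (by linarith [Real.pi_gt_three])
  · have := Real.sin_lt h0
    linarith

theorem Ang_false {v : unitInterval} (h : v ∈ Ang false) :
    31 / 32 ≤ Real.cos (2 * Real.pi * (v : ℝ)) ∧ 0 ≤ Real.sin (2 * Real.pi * (v : ℝ)) ∧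
      Real.sin (2 * Real.pi * (v : ℝ)) ≤ 1 / 32 := by
  simp only [Ang, Bool.false_eq_true, if_false, Set.mem_Ioo] at h
  obtain ⟨h1, h2⟩ := h
  have h1' : (0 : ℝ) < v := h1
  have h2' : (v : ℝ) < 1 / 1000 := h2
  have hpi := Real.pi_lt_four
  have hpi0 := Real.pi_pos
  refine small_trig _ (by positivity) ?_
  nlinarith

theorem Ang_true {v : unitInterval} (h : v ∈ Ang true) :
    31 / 32 ≤ Real.sin (2 * Real.pi * (v : ℝ)) ∧ 0 ≤ Real.cos (2 * Real.pi * (v : ℝ)) ∧
      Real.cos (2 * Real.pi * (v : ℝ)) ≤ 1 / 32 := by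
  simp only [Ang, if_true, Set.mem_Ioo] at h
  obtain ⟨h1, h2⟩ := h
  have h1' : (249 / 1000 : ℝ) < v := h1
  have h2' : (v : ℝ) < 250 / 1000 := h2
  have hpi := Real.pi_lt_four
  have hpi0 := Real.pi_pos
  have h3 : 0 < 2 * Real.pi * (1 / 4 - (v : ℝ)) := by
    have : (0 : ℝ) < 1 / 4 - v := by linarith
    positivity
  have h4 : 2 * Real.pi * (1 / 4 - (v : ℝ)) < 1 / 100 := by nlinarith
  have h5 := small_trig _ h3 h4
  have h6 : 2 * Real.pi * (1 / 4 - (v : ℝ)) = Real.pi / 2 - 2 * Real.pi * v := by ring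
  rw [h6, Real.cos_pi_div_two_sub, Real.sin_pi_div_two_sub] at h5
  exact h5

/-- the sticks used: nearly horizontal or nearly vertical, of length at least `s` -/
def Mk (s : ℝ) (b : Bool) : Set Mark := Set.univ ×ˢ (Ang b ×ˢ Set.Ici s)

theorem Mk_meas (s : ℝ) (b : Bool) : MeasurableSet (Mk s b) :=
  MeasurableSet.univ.prod ((Ang_meas b).prod measurableSet_Ici)

theorem Mk_prob (μ : Measure ℝ) [IsProbabilityMeasure μ] (s : ℝ) (b : Bool) :
    oneLaw μ (Mk s b) = ENNReal.ofReal (1 / 1000) * μ (Set.Ici s) := by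
  unfold oneLaw Mk
  rw [Measure.prod_prod, Measure.prod_prod, Ang_vol, measure_univ, one_mul]

/-- the blocks of unit cells for the starting points -/
def blk (m : ℕ) (w : (ℤ × ℤ) × Bool) : Finset (ℤ × ℤ) :=
  Finset.Ico (8 * (m : ℤ) * w.1.1 + 4 * m * (if w.2 then 1 else 0))
      (8 * (m : ℤ) * w.1.1 + 4 * m * (if w.2 then 1 else 0) + m) ×ˢ
    Finset.Ico (8 * (m : ℤ) * w.1.2 - 4 * m * (if w.2 then 1 else 0))
      (8 * (m : ℤ) * w.1.2 - 4 * m * (if w.2 then 1 else 0) + m)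

theorem card_blk (m : ℕ) (w : (ℤ × ℤ) × Bool) : (blk m w).card = m * m := by
  unfold blk
  rw [Finset.card_product, Int.card_Ico, Int.card_Ico]
  simp

theorem blk_unique (m : ℕ) {w w' : (ℤ × ℤ) × Bool} {x : ℤ × ℤ} (h : x ∈ blk m w)
    (h' : x ∈ blk m w') : w = w' := by
  obtain ⟨⟨a, b⟩, τ⟩ := w
  obtain ⟨⟨a', b'⟩, τ'⟩ := w'
  unfold blk at h h'
  rw [Finset.mem_product, Finset.mem_Ico, Finset.mem_Ico] at h h'
  simp only at h h'
  obtain ⟨⟨h1, h2⟩, h3, h4⟩ := h
  obtain ⟨⟨h1', h2'⟩, h3', h4'⟩ := h'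
  set e : ℤ := if τ then 1 else 0 with he
  set e' : ℤ := if τ' then 1 else 0 with he'
  have hm : (0 : ℤ) < m := by linarith
  have key : ∀ k : ℤ, -(m : ℤ) < 4 * m * k → 4 * m * k < m → k = 0 := by
    intro k hk1 hk2
    have h5 : k < 1 := by
      by_contra h
      push Not at h
      nlinarith
    have h6 : -1 < k := by
      by_contra h
      push Not at h
      nlinarith
    omega
  have k1 : 2 * (a - a') + (e - e') = 0 := by
    refine key _ ?_ ?_
    · have : 4 * (m : ℤ) * (2 * (a - a') + (e - e'))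
          = (8 * m * a + 4 * m * e) - (8 * m * a' + 4 * m * e') := by ring
      rw [this]; linarith
    · have : 4 * (m : ℤ) * (2 * (a - a') + (e - e'))
          = (8 * m * a + 4 * m * e) - (8 * m * a' + 4 * m * e') := by ring
      rw [this]; linarith
  have k2 : 2 * (b - b') - (e - e') = 0 := by
    refine key _ ?_ ?_
    · have : 4 * (m : ℤ) * (2 * (b - b') - (e - e'))
          = (8 * m * b - 4 * m * e) - (8 * m * b' - 4 * m * e') := by ring
      rw [this]; linarith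
    · have : 4 * (m : ℤ) * (2 * (b - b') - (e - e'))
          = (8 * m * b - 4 * m * e) - (8 * m * b' - 4 * m * e') := by ring
      rw [this]; linarith
  have hτ : τ = τ' := by
    cases τ <;> cases τ' <;> simp at he he' ⊢ <;> omega
  subst hτ
  have : a = a' := by omega
  have : b = b' := by omega
  subst_vars
  rfl

/-- no stick of the given kind starts in the block -/
def Nb (m : ℕ) (w : (ℤ × ℤ) × Bool) : Set Sample :=
  {ω | ∀ x ∈ blk m w, ∀ i < ω.1 x, ω.2 (x, i) ∉ Mk (40 * m) w.2}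

theorem sticksLaw_eq (t : ℝ≥0) (μ : Measure ℝ) [IsProbabilityMeasure μ] :
    sticksLaw t μ = markedLaw (ℤ × ℤ) t (oneLaw μ) := rfl

instance (t : ℝ≥0) (μ : Measure ℝ) [IsProbabilityMeasure μ] :
    IsProbabilityMeasure (sticksLaw t μ) := by
  rw [sticksLaw_eq]; infer_instance

theorem Dp_Nb (t : ℝ≥0) (μ : Measure ℝ) [IsProbabilityMeasure μ] (m : ℕ) :
    Dp (sticksLaw t μ) (Nb m)
      (ENNReal.ofReal (Real.exp (-(m * m * (t * (oneLaw μ (Mk (40 * m) true)).toReal))))) := by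
  classical
  intro W
  set A : ℤ × ℤ → Set Mark := fun x => ⋂ w : (ℤ × ℤ) × Bool, ⋂ _ : x ∈ blk m w, Mk (40 * m) w.2
    with hA
  have hAm : ∀ x, MeasurableSet (A x) := fun x =>
    MeasurableSet.iInter fun w => MeasurableSet.iInter fun _ => Mk_meas _ _
  have hAx : ∀ w, ∀ x ∈ blk m w, A x = Mk (40 * m) w.2 := by
    intro w x hx
    ext a
    simp only [hA, Set.mem_iInter]
    constructor
    · intro h
      exact h w hx
    · intro h w' hw'
      rw [← blk_unique m hx hw']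
      exact h
  have hset : (⋂ w ∈ W, Nb m w) = {ω | ∀ x ∈ W.biUnion (blk m), ∀ i < ω.1 x, ω.2 (x, i) ∉ A x} := by
    ext ω
    simp only [Set.mem_iInter, Nb, Set.mem_ofPred_eq, Finset.mem_biUnion]
    constructor
    · rintro h x ⟨w, hw, hx⟩ i hi
      rw [hAx w x hx]
      exact h w hw x hx i hi
    · intro h w hw x hx i hi
      have := h x ⟨w, hw, hx⟩ i hi
      rwa [hAx w x hx] at this
  rw [hset, sticksLaw_eq, avoidG t (oneLaw μ) _ A hAm, Finset.prod_biUnion]
  · refine le_of_eq ?_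
    rw [← Finset.prod_const]
    refine Finset.prod_congr rfl fun w _ => ?_
    have h1 : ∀ x ∈ blk m w, ENNReal.ofReal (Real.exp (-(t * (oneLaw μ (A x)).toReal)))
        = ENNReal.ofReal (Real.exp (-(t * (oneLaw μ (Mk (40 * m) true)).toReal))) := by
      intro x hx
      rw [hAx w x hx, Mk_prob, Mk_prob]
    rw [Finset.prod_congr rfl h1, Finset.prod_const, card_blk, ← ENNReal.ofReal_pow (Real.exp_pos _).le,
      ← Real.exp_nat_mul]
    congr 2
    push_cast
    ring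
  · intro w _ w' _ hne
    rw [Function.onFun, Finset.disjoint_left]
    intro x hx hx'
    exact hne (blk_unique m hx hx')

/-- good coarse sites -/
def gs (m : ℕ) (ω : Sample) (z : ℤ × ℤ) : Prop := ω ∉ Nb m (z, false) ∧ ω ∉ Nb m (z, true)

theorem Dp_gs (t : ℝ≥0) (μ : Measure ℝ) [IsProbabilityMeasure μ] (m : ℕ) :
    Dp (sticksLaw t μ) (fun z => {ω | ¬ gs m ω z})
      (2 * ENNReal.ofReal (Real.exp (-(m * m * (t * (oneLaw μ (Mk (40 * m) true)).toReal))))) := by
  have h := Dp_step (sticksLaw t μ) (Nb m) _ (Finset.univ : Finset Bool)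
    (fun (z : ℤ × ℤ) (b : Bool) => {(z, b)}) 1 (fun _ _ _ => Finset.card_singleton _)
    (fun z z' c c' hz => by
      rw [Finset.disjoint_singleton]
      intro h
      exact hz (congrArg Prod.fst h))
    (fun z => {ω | ¬ gs m ω z}) (fun z ω hω => by
      simp only [gs, Set.mem_ofPred_eq, not_and_or, not_not] at hω
      rcases hω with hω | hω
      · exact Set.mem_biUnion (x := false) (by simp) (by simpa using hω)
      · exact Set.mem_biUnion (x := true) (by simp) (by simpa using hω)) (Dp_Nb t μ m)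
  simpa using h

theorem stick_eq (x : ℤ × ℤ) (a : Mark) : stick x a = (fun l : ℝ =>
    ((x.1 : ℝ) + (a.1.1 : ℝ) + l * Real.cos (2 * Real.pi * (a.2.1 : ℝ)),
      (x.2 : ℝ) + (a.1.2 : ℝ) + l * Real.sin (2 * Real.pi * (a.2.1 : ℝ)))) '' Set.Icc 0 a.2.2 := by
  ext p
  simp only [stick, Set.mem_ofPred_eq, Set.mem_image, Set.mem_Icc]
  constructor
  · rintro ⟨l, h1, h2, rfl⟩
    exact ⟨l, ⟨h1, h2⟩, rfl⟩
  · rintro ⟨l, ⟨h1, h2⟩, rfl⟩
    exact ⟨l, h1, h2, rfl⟩

theorem stick_preconn (x : ℤ × ℤ) (a : Mark) : IsPreconnected (stick x a) := by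
  rw [stick_eq]
  refine isPreconnected_Icc.image _ ?_
  fun_prop

/-- crossing of a nearly horizontal and a nearly vertical stick -/
theorem stick_meet (m : ℕ) (hm : 1 ≤ m) (x y : ℤ × ℤ) (a b : Mark) (ha : a ∈ Mk (40 * m) false)
    (hb : b ∈ Mk (40 * m) true) (h1 : x.1 + 1 ≤ y.1) (h2 : y.1 + 1 ≤ x.1 + 20 * m)
    (h3 : y.2 + 1 ≤ x.2) (h4 : x.2 + 1 ≤ y.2 + 20 * m) :
    (stick x a ∩ stick y b).Nonempty := by
  obtain ⟨_, ha1, ha2⟩ := ha
  obtain ⟨_, hb1, hb2⟩ := hb
  have ta := Ang_false ha1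
  have tb := Ang_true hb1
  have hm' : (1 : ℝ) ≤ m := by exact_mod_cast hm
  have h1' : (x.1 : ℝ) + 1 ≤ y.1 := by exact_mod_cast h1
  have h2' : (y.1 : ℝ) + 1 ≤ x.1 + 20 * m := by exact_mod_cast h2
  have h3' : (y.2 : ℝ) + 1 ≤ x.2 := by exact_mod_cast h3
  have h4' : (x.2 : ℝ) + 1 ≤ y.2 + 20 * m := by exact_mod_cast h4
  have ua0 := a.1.1.2.1
  have ua1 := a.1.1.2.2
  have va0 := a.1.2.2.1
  have va1 := a.1.2.2.2
  have ub0 := b.1.1.2.1
  have ub1 := b.1.1.2.2
  have vb0 := b.1.2.2.1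
  have vb1 := b.1.2.2.2
  have hLa : (40 : ℝ) * m ≤ a.2.2 := ha2
  have hLb : (40 : ℝ) * m ≤ b.2.2 := hb2
  obtain ⟨l, k, hl0, hl1, hk0, hk1, he1, he2⟩ := meet_alg (m : ℝ) ((x.1 : ℝ) + (a.1.1 : ℝ))
    ((x.2 : ℝ) + (a.1.2 : ℝ)) ((y.1 : ℝ) + (b.1.1 : ℝ)) ((y.2 : ℝ) + (b.1.2 : ℝ))
    (Real.cos (2 * Real.pi * (a.2.1 : ℝ))) (Real.sin (2 * Real.pi * (a.2.1 : ℝ)))
    (Real.sin (2 * Real.pi * (b.2.1 : ℝ))) (Real.cos (2 * Real.pi * (b.2.1 : ℝ)))
    a.2.2 b.2.2 (by linarith) ta.1 (Real.cos_le_one _) ta.2.1 ta.2.2 tb.1 (Real.sin_le_one _)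
    tb.2.1 tb.2.2 (by linarith) (by linarith) (by linarith) (by linarith) hLa hLb
  exact ⟨_, ⟨l, hl0, hl1, rfl⟩, ⟨k, hk0, hk1, Prod.ext he1 he2⟩⟩

/-- if all coarse sites at the origin are good, the sticks percolate -/
theorem percolates_of_good (m : ℕ) (hm : 1 ≤ m) (ω : Sample) (h : ∀ k, Gd (gs m ω) k 0) :
    Percolates (occupied ω) := by
  have hex : ∀ (z : ℤ × ℤ) (b : Bool), gs m ω z → ∃ x : ℤ × ℤ, ∃ i : ℕ, x ∈ blk m (z, b) ∧
      i < ω.1 x ∧ ω.2 (x, i) ∈ Mk (40 * m) b := by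
    intro z b hz
    have h1 : ω ∉ Nb m (z, b) := by
      cases b
      · exact hz.1
      · exact hz.2
    simp only [Nb, Set.mem_ofPred_eq] at h1
    push Not at h1
    obtain ⟨x, hx, i, hi, hM⟩ := h1
    exact ⟨x, i, hx, hi, hM⟩
  choose! X I hX hI hM using hex
  set S : ℤ × ℤ → Bool → Set (ℝ × ℝ) := fun z b => stick (X z b) (ω.2 (X z b, I z b)) with hS
  have hmZ : (1 : ℤ) ≤ m := by exact_mod_cast hm
  have hbX : ∀ z b, gs m ω z →
      (8 * (m : ℤ) * z.1 + 4 * m * (if b then 1 else 0) ≤ (X z b).1 ∧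
      (X z b).1 < 8 * (m : ℤ) * z.1 + 4 * m * (if b then 1 else 0) + m) ∧
      (8 * (m : ℤ) * z.2 - 4 * m * (if b then 1 else 0) ≤ (X z b).2 ∧
      (X z b).2 < 8 * (m : ℤ) * z.2 - 4 * m * (if b then 1 else 0) + m) := by
    intro z b hz
    have := hX z b hz
    unfold blk at this
    rw [Finset.mem_product, Finset.mem_Ico, Finset.mem_Ico] at this
    exact this
  -- sticks crossing
  have hcross : ∀ z z', gs m ω z → gs m ω z' →
      (z' = z ∨ z' = z + (1, 0) ∨ z = z' + (0, 1)) → (S z false ∩ S z' true).Nonempty := by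
    intro z z' hz hz' hcase
    have b1 := hbX z false hz
    have b2 := hbX z' true hz'
    simp only [Bool.false_eq_true, if_false, if_true, mul_zero, mul_one, add_zero, sub_zero] at b1 b2
    refine stick_meet m hm _ _ _ _ (hM z false hz) (hM z' true hz') ?_ ?_ ?_ ?_
    all_goals
      rcases hcase with rfl | rfl | rfl
      all_goals
        try simp only [Prod.fst_add, Prod.snd_add, mul_add, mul_one, mul_zero, add_zero] at b1 b2
        linarith
  have k1 : ∀ z, gs m ω z → IsPreconnected (S z false ∪ S z true) := by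
    intro z hz
    exact IsPreconnected.union' (hcross z z hz hz (Or.inl rfl)) (stick_preconn _ _)
      (stick_preconn _ _)
  have k2 : ∀ z, gs m ω z → (S z false ∪ S z true).Nonempty := by
    intro z hz
    obtain ⟨p, hp, _⟩ := hcross z z hz hz (Or.inl rfl)
    exact ⟨p, Or.inl hp⟩
  have k3 : ∀ z, gs m ω z → gs m ω (z + (1, 0)) →
      ((S z false ∪ S z true) ∩ (S (z + (1, 0)) false ∪ S (z + (1, 0)) true)).Nonempty := by
    intro z hz hz'
    obtain ⟨p, hp, hp'⟩ := hcross z _ hz hz' (Or.inr (Or.inl rfl))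
    exact ⟨p, Or.inl hp, Or.inr hp'⟩
  have k4 : ∀ z, gs m ω z → gs m ω (z + (0, 1)) →
      ((S z false ∪ S z true) ∩ (S (z + (0, 1)) false ∪ S (z + (0, 1)) true)).Nonempty := by
    intro z hz hz'
    obtain ⟨p, hp, hp'⟩ := hcross _ z hz' hz (Or.inr (Or.inr rfl))
    exact ⟨p, Or.inr hp', Or.inl hp⟩
  have k5 : ∀ z, gs m ω z → ∀ p ∈ S z false ∪ S z true, (8 : ℝ) * m * z.1 ≤ p.1 := by
    intro z hz p hp
    have hgen : ∀ b : Bool, p ∈ S z b → (8 : ℝ) * m * z.1 ≤ p.1 := by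
      rintro b ⟨l, hl0, _, rfl⟩
      have b1 := (hbX z b hz).1.1
      have hcos : 0 ≤ Real.cos (2 * Real.pi * ((ω.2 (X z b, I z b)).2.1 : ℝ)) := by
        cases b
        · have := (Ang_false (hM z false hz).2.1).1
          linarith
        · exact (Ang_true (hM z true hz).2.1).2.1
      have hu := (ω.2 (X z b, I z b)).1.1.2.1
      have b2 : 8 * (m : ℤ) * z.1 ≤ (X z b).1 := by
        have : (0 : ℤ) ≤ 4 * m * (if b then 1 else 0) := by
          split_ifs
          · linarith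
          · simp
        linarith
      have b3 : (8 : ℝ) * m * z.1 ≤ (X z b).1 := by exact_mod_cast b2
      have := mul_nonneg hl0 hcos
      simp only
      linarith
    rcases hp with hp | hp
    · exact hgen false hp
    · exact hgen true hp
  obtain ⟨U, hne, hpre, hunb, hsub⟩ := exists_unbounded (gs m ω) (fun z => S z false ∪ S z true)
    (8 * m) (by positivity) k1 k2 k3 k4 k5 h
  obtain ⟨p, hp⟩ := hne
  have hUocc : U ⊆ occupied ω := by
    intro q hq
    have := hsub hq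
    simp only [Set.mem_iUnion] at this
    obtain ⟨z, hz, hq⟩ := this
    rcases hq with hq | hq
    · exact ⟨_, _, hI z false hz, hq⟩
    · exact ⟨_, _, hI z true hz, hq⟩
  refine ⟨p, hUocc hp, fun hb => hunb (hb.subset ?_)⟩
  exact hpre.subset_connectedComponentIn hp hUocc

/-- **Percolation at every intensity.** -/
theorem percolates_pos (μ : Measure ℝ) [IsProbabilityMeasure μ]
    (h : ∀ C : ℝ, ∃ r : ℝ, 0 < r ∧ C < r ^ 2 * (μ (Set.Ici r)).toReal) (t : ℝ≥0) (ht : 0 < t) :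
    0 < sticksLaw t μ {ω | Percolates (occupied ω)} := by
  have ht' : (0 : ℝ) < t := ht
  obtain ⟨r, hr0, hr⟩ := h (max 1600 (6400 * 1000 * 10 / t))
  have hP1 : (μ (Set.Ici r)).toReal ≤ 1 := by
    have := ENNReal.toReal_mono (by simp) (prob_le_one (μ := μ) (s := Set.Ici r))
    simpa using this
  have hr1 : (1600 : ℝ) < r ^ 2 * (μ (Set.Ici r)).toReal := lt_of_le_of_lt (le_max_left _ _) hr
  have hr2 : 6400 * 1000 * 10 / (t : ℝ) < r ^ 2 * (μ (Set.Ici r)).toReal :=
    lt_of_le_of_lt (le_max_right _ _) hr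
  have hr40 : 40 < r := by
    by_contra hle
    push Not at hle
    have h1 : r ^ 2 * (μ (Set.Ici r)).toReal ≤ r ^ 2 * 1 :=
      mul_le_mul_of_nonneg_left hP1 (by positivity)
    nlinarith
  set m : ℕ := ⌊r / 40⌋₊ with hm
  have hm1 : 1 ≤ m := by
    rw [hm, Nat.one_le_floor_iff]
    linarith
  have hmr : (40 : ℝ) * m ≤ r := by
    have := Nat.floor_le (by positivity : 0 ≤ r / 40)
    rw [← hm] at this
    linarith
  have hmr2 : r ≤ 80 * m := by
    have h1 := Nat.lt_floor_add_one (r / 40)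
    rw [← hm] at h1
    have : (1 : ℝ) ≤ m := by exact_mod_cast hm1
    linarith
  set q : ℝ := (oneLaw μ (Mk (40 * m) true)).toReal with hq
  have hqval : q = 1 / 1000 * (μ (Set.Ici (40 * (m : ℝ)))).toReal := by
    rw [hq, Mk_prob, ENNReal.toReal_mul, ENNReal.toReal_ofReal (by norm_num)]
  have hmono : (μ (Set.Ici r)).toReal ≤ (μ (Set.Ici (40 * (m : ℝ)))).toReal :=
    ENNReal.toReal_mono (measure_ne_top _ _) (measure_mono (Set.Ici_subset_Ici.mpr hmr))
  have hbig : 10 ≤ m * m * (t * q) := by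
    have h1 : r ^ 2 * (μ (Set.Ici r)).toReal
        ≤ (80 * m) ^ 2 * (μ (Set.Ici (40 * (m : ℝ)))).toReal := by
      refine mul_le_mul ?_ hmono ENNReal.toReal_nonneg (by positivity)
      exact pow_le_pow_left₀ hr0.le hmr2 2
    have h2 : 6400 * 1000 * 10 < (80 * m) ^ 2 * (μ (Set.Ici (40 * (m : ℝ)))).toReal * t := by
      rw [div_lt_iff₀ ht'] at hr2
      refine hr2.trans_le ?_
      exact mul_le_mul_of_nonneg_right h1 ht'.le
    rw [hqval]
    nlinarith
  have hD := Dp_gs t μ m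
  rw [← hq] at hD
  have hp : 2 * ENNReal.ofReal (Real.exp (-(m * m * (t * q)))) ≤ ENNReal.ofReal (1 / 288) := by
    have h2 : (2 : ℝ≥0∞) = ENNReal.ofReal 2 := by norm_num
    rw [h2, ← ENNReal.ofReal_mul (by norm_num)]
    refine ENNReal.ofReal_le_ofReal ?_
    have h1 : Real.exp (-(m * m * (t * q))) ≤ Real.exp (-10) := Real.exp_le_exp.mpr (by linarith)
    have h3 : Real.exp (-10) ≤ 1 / 576 := by
      rw [Real.exp_neg, inv_eq_one_div]
      refine one_div_le_one_div_of_le (by norm_num) ?_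
      have h4 : (2 : ℝ) ≤ Real.exp 1 := by
        have := Real.add_one_le_exp 1
        linarith
      calc (576 : ℝ) ≤ 2 ^ 10 := by norm_num
        _ ≤ Real.exp 1 ^ 10 := pow_le_pow_left₀ (by norm_num) h4 10
        _ = Real.exp 10 := by rw [← Real.exp_nat_mul]; norm_num
    linarith
  have hpos := all_good_pos (sticksLaw t μ) (gs m) _ hp hD
  refine hpos.trans_le (measure_mono fun ω hω => ?_)
  exact percolates_of_good m hm1 ω hω

end

end Pool.Agent.V5helper43.PR
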