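import Mathlib
import Pool.Agent.V5helper43.PR.Avoid
import Pool.Agent.V5helper43.PR.Model

/-!
# No percolation of sticks at small intensity when `r ^ 2 P (L ≥ r)` is bounded
-/

set_option autoImplicit false
open MeasureTheory ProbabilityTheory
open scoped ENNReal NNReal BigOperators

namespace Pool.Agent.V5helper43.PR

open Pool.Agent.H592 Pool.Agent.R958.Animal

noncomputable section

/-- the lower left corner of a cell as a lattice point -/
def phi (p : ℤ × ℤ) : V 2 := ![p.1, p.2]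

/-- the inverse of `phi` -/
def phiInv (y : V 2) : ℤ × ℤ := (y 0, y 1)

/-- the identification of the two lattices -/
def phiE : (ℤ × ℤ) ≃ V 2 where
  toFun := phi
  invFun := phiInv
  left_inv _ := rfl
  right_inv y := by funext j; fin_cases j <;> rfl

/-- the cell of a point -/
def fl (p : ℝ × ℝ) : V 2 := ![⌊p.1⌋, ⌊p.2⌋]

theorem floor_close (a b : ℝ) (n : ℕ) (h : |a - b| ≤ n) : |⌊a⌋ - ⌊b⌋| ≤ (n : ℤ) := by
  rw [abs_le] at h ⊢
  have h1 : ⌊a⌋ ≤ ⌊b⌋ + n := by
    rw [← Int.floor_add_natCast]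
    exact Int.floor_le_floor (by linarith [h.2])
  have h2 : ⌊b⌋ ≤ ⌊a⌋ + n := by
    rw [← Int.floor_add_natCast]
    exact Int.floor_le_floor (by linarith [h.1])
  constructor <;> linarith

theorem fl_close (p q : ℝ × ℝ) (n : ℕ) (h1 : |p.1 - q.1| ≤ n) (h2 : |p.2 - q.2| ≤ n) (j : Fin 2) :
    |fl p j - fl q j| ≤ (n : ℤ) := by
  fin_cases j
  · exact floor_close _ _ n h1
  · exact floor_close _ _ n h2

/-- the point at distance `s` along the stick, relative to the corner of the cell -/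
def pt (a : Mark) (s : ℝ) : ℝ × ℝ :=
  ((a.1.1 : ℝ) + s * Real.cos (2 * Real.pi * (a.2.1 : ℝ)),
    (a.1.2 : ℝ) + s * Real.sin (2 * Real.pi * (a.2.1 : ℝ)))

theorem pt_close (a : Mark) (s t : ℝ) (n : ℕ) (h : |s - t| ≤ n) (j : Fin 2) :
    |fl (pt a s) j - fl (pt a t) j| ≤ (n : ℤ) := by
  refine fl_close _ _ n ?_ ?_ j
  · have : (pt a s).1 - (pt a t).1 = (s - t) * Real.cos (2 * Real.pi * (a.2.1 : ℝ)) := by
      unfold pt; ring
    rw [this, abs_mul]
    calc |s - t| * |Real.cos (2 * Real.pi * (a.2.1 : ℝ))| ≤ |s - t| * 1 :=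
          mul_le_mul_of_nonneg_left (Real.abs_cos_le_one _) (abs_nonneg _)
      _ ≤ n := by linarith
  · have : (pt a s).2 - (pt a t).2 = (s - t) * Real.sin (2 * Real.pi * (a.2.1 : ℝ)) := by
      unfold pt; ring
    rw [this, abs_mul]
    calc |s - t| * |Real.sin (2 * Real.pi * (a.2.1 : ℝ))| ≤ |s - t| * 1 :=
          mul_le_mul_of_nonneg_left (Real.abs_sin_le_one _) (abs_nonneg _)
      _ ≤ n := by linarith

/-- cells near the points at distance `0, 1, …, n - 1` along the stick -/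
def Gm (n : ℕ) (a : Mark) : Finset (V 2) :=
  (Finset.range n).biUnion fun q => Bx (fl (pt a (q : ℝ))) 2

/-- cells near the stick -/
def Fm (a : Mark) : Finset (V 2) := Gm (⌊a.2.2⌋₊ + 1) a

theorem fl_pt_meas (q : ℝ) : Measurable (fun a : Mark => fl (pt a q)) := by
  refine measurable_pi_iff.mpr fun j => ?_
  fin_cases j
  · show Measurable fun a : Mark =>
      ⌊(a.1.1 : ℝ) + q * Real.cos (2 * Real.pi * (a.2.1 : ℝ))⌋
    exact Int.measurable_floor.comp (by fun_prop)
  · show Measurable fun a : Mark =>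
      ⌊(a.1.2 : ℝ) + q * Real.sin (2 * Real.pi * (a.2.1 : ℝ))⌋
    exact Int.measurable_floor.comp (by fun_prop)

theorem Gm_meas (n : ℕ) (A : Finset (V 2)) : MeasurableSet (Gm n ⁻¹' {A}) := by
  let _ : MeasurableSpace (Finset (V 2)) := ⊤
  have _ : DiscreteMeasurableSpace (Finset (V 2)) := ⟨fun _ => trivial⟩
  have hm : ∀ n, Measurable (Gm n) := by
    intro n
    induction n with
    | zero =>
      have : Gm 0 = fun _ => ∅ := by
        funext a
        simp [Gm]
      rw [this]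
      exact measurable_const
    | succ n ih =>
      have : Gm (n + 1) = (fun x : Finset (V 2) × V 2 => Bx x.2 2 ∪ x.1) ∘
          fun a => (Gm n a, fl (pt a (n : ℝ))) := by
        funext a
        simp only [Gm, Finset.range_add_one, Finset.biUnion_insert, Function.comp_apply]
      rw [this]
      exact (measurable_of_countable _).comp (ih.prodMk (fl_pt_meas _))
  exact hm n (MeasurableSet.of_discrete)

theorem Fm_meas (A : Finset (V 2)) : MeasurableSet (Fm ⁻¹' {A}) := by
  have : Fm ⁻¹' {A} = ⋃ n : ℕ, ({a : Mark | ⌊a.2.2⌋₊ = n} ∩ Gm (n + 1) ⁻¹' {A}) := by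
    ext a
    simp only [Fm, Set.mem_preimage, Set.mem_singleton_iff, Set.mem_iUnion, Set.mem_inter_iff,
      Set.mem_ofPred_eq]
    constructor
    · intro h
      exact ⟨_, rfl, h⟩
    · rintro ⟨n, h1, h2⟩
      rw [h1]; exact h2
  rw [this]
  refine MeasurableSet.iUnion fun n => MeasurableSet.inter ?_ (Gm_meas _ _)
  have h1 : Measurable fun a : Mark => ⌊a.2.2⌋₊ := Nat.measurable_floor.comp (by fun_prop)
  exact h1 (measurableSet_singleton n)

/-! ### From the plane to the lattice -/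

theorem conn_close (U : Set (V 2)) (u v : V 2) (hu : ∀ z : V 2, (∀ j, |z j - u j| ≤ 1) → z ∈ U)
    (huv : ∀ j, |v j - u j| ≤ 1) : conn U u v := by
  have h0 := huv 0
  have h1 := huv 1
  have hstep : ∀ a b : V 2, a ∈ U → b ∈ U → (a = b ∨ nb a b) → conn U a b := by
    rintro a b ha hb (rfl | h)
    · exact Relation.ReflTransGen.refl
    · exact Relation.ReflTransGen.single ⟨ha, hb, h⟩
  have huU : u ∈ U := hu u fun j => by simp
  have hwU : (![v 0, u 1] : V 2) ∈ U := by
    refine hu _ fun j => ?_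
    fin_cases j
    · simpa using h0
    · simp
  have hvU : v ∈ U := hu v huv
  refine Relation.ReflTransGen.trans (hstep u ![v 0, u 1] huU hwU ?_) (hstep _ v hwU hvU ?_)
  · by_cases h : v 0 = u 0
    · left
      funext j
      fin_cases j
      · exact h.symm
      · rfl
    · right
      unfold nb
      rw [Fin.sum_univ_two]
      simp only [Matrix.cons_val_zero, Matrix.cons_val_one, sub_self, abs_zero, add_zero]
      rw [abs_sub_comm]
      have : v 0 - u 0 ≠ 0 := sub_ne_zero.mpr h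
      have h2 : 0 < |v 0 - u 0| := abs_pos.mpr this
      omega
  · by_cases h : v 1 = u 1
    · left
      funext j
      fin_cases j
      · rfl
      · exact h.symm
    · right
      unfold nb
      rw [Fin.sum_univ_two]
      simp only [Matrix.cons_val_zero, Matrix.cons_val_one, sub_self, abs_zero, zero_add]
      rw [abs_sub_comm]
      have : v 1 - u 1 ≠ 0 := sub_ne_zero.mpr h
      have h2 : 0 < |v 1 - u 1| := abs_pos.mpr this
      omega

/-- the occupied cells -/
def Uc (ω : Sample) : Set (V 2) := occ (Qs (xiG phiE Fm) ω)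

theorem occupied_cells (ω : Sample) (p : ℝ × ℝ) (hp : p ∈ occupied ω) (z : V 2)
    (hz : ∀ j, |z j - fl p j| ≤ 1) : z ∈ Uc ω := by
  obtain ⟨x, i, hi, l, hl0, hl1, rfl⟩ := hp
  refine ⟨(phi x, Fm (ω.2 (x, i))), ?_, ?_⟩
  · show xiG phiE Fm _ ω = true
    rw [xiG_true_iff]
    exact ⟨i, hi, rfl⟩
  · show z - phi x ∈ Fm (ω.2 (x, i))
    set a := ω.2 (x, i) with ha
    unfold Fm Gm
    rw [Finset.mem_biUnion]
    refine ⟨⌊l⌋₊, ?_, ?_⟩
    · rw [Finset.mem_range, Nat.lt_succ_iff]
      exact Nat.floor_le_floor hl1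
    · rw [mem_Bx]
      intro j
      have h1 : |l - (⌊l⌋₊ : ℝ)| ≤ (1 : ℕ) := by
        rw [abs_le]
        have := Nat.floor_le hl0
        have := Nat.lt_floor_add_one l
        push_cast
        constructor <;> linarith
      have h2 := pt_close a l (⌊l⌋₊ : ℝ) 1 h1 j
      have h3 := hz j
      have h4 : fl ((x.1 : ℝ) + (a.1.1 : ℝ) + l * Real.cos (2 * Real.pi * (a.2.1 : ℝ)),
          (x.2 : ℝ) + (a.1.2 : ℝ) + l * Real.sin (2 * Real.pi * (a.2.1 : ℝ))) j
          = phi x j + fl (pt a l) j := by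
        fin_cases j
        · show ⌊(x.1 : ℝ) + (a.1.1 : ℝ) + l * Real.cos (2 * Real.pi * (a.2.1 : ℝ))⌋
            = x.1 + ⌊(a.1.1 : ℝ) + l * Real.cos (2 * Real.pi * (a.2.1 : ℝ))⌋
          rw [add_assoc, Int.floor_intCast_add]
        · show ⌊(x.2 : ℝ) + (a.1.2 : ℝ) + l * Real.sin (2 * Real.pi * (a.2.1 : ℝ))⌋
            = x.2 + ⌊(a.1.2 : ℝ) + l * Real.sin (2 * Real.pi * (a.2.1 : ℝ))⌋
          rw [add_assoc, Int.floor_intCast_add]
      rw [h4] at h3
      rw [abs_le] at h2 h3 ⊢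
      simp only [Pi.sub_apply]
      push_cast at h2 ⊢
      constructor <;> linarith [h2.1, h2.2, h3.1, h3.2]

theorem perc_of_percolates (ω : Sample) (h : Percolates (occupied ω)) : perc (Uc ω) := by
  obtain ⟨p, hp, hub⟩ := h
  have hpre : IsPreconnected (connectedComponentIn (occupied ω) p) :=
    isPreconnected_connectedComponentIn
  have hsub : connectedComponentIn (occupied ω) p ⊆ occupied ω := connectedComponentIn_subset _ _
  have hall : ∀ y ∈ connectedComponentIn (occupied ω) p, conn (Uc ω) (fl p) (fl y) := by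
    intro y hy
    refine hpre.induction₂' (fun y y' => conn (Uc ω) (fl y) (fl y')) ?_ ?_
      (mem_connectedComponentIn hp) hy
    · intro x hx
      have hball : Metric.ball x 1 ∈ nhds x := Metric.ball_mem_nhds x one_pos
      filter_upwards [mem_nhdsWithin_of_mem_nhds hball] with y hy
      have h1 : ∀ j, |fl y j - fl x j| ≤ (1 : ℤ) := by
        rw [Metric.mem_ball, Prod.dist_eq, max_lt_iff, Real.dist_eq, Real.dist_eq] at hy
        have := fl_close y x 1 (by push_cast; exact hy.1.le) (by push_cast; exact hy.2.le)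
        simpa using this
      have h2 := conn_close (Uc ω) (fl x) (fl y) (occupied_cells ω x (hsub hx)) h1
      exact ⟨h2, conn_symm h2⟩
    · intro a b c _ _ _ h1 h2
      exact Relation.ReflTransGen.trans h1 h2
  refine ⟨fl p, ?_⟩
  intro hfin
  apply hub
  have hfin2 : (fl '' connectedComponentIn (occupied ω) p).Finite := by
    refine hfin.subset ?_
    rintro _ ⟨y, hy, rfl⟩
    exact hall y hy
  have hcov : connectedComponentIn (occupied ω) p ⊆
      ⋃ u ∈ fl '' connectedComponentIn (occupied ω) p,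
        (Set.Icc ((u 0 : ℤ) : ℝ) ((u 0 : ℤ) + 1 : ℝ)) ×ˢ (Set.Icc ((u 1 : ℤ) : ℝ) ((u 1 : ℤ) + 1 : ℝ)) := by
    intro y hy
    refine Set.mem_biUnion (x := fl y) ⟨y, hy, rfl⟩ ?_
    refine ⟨⟨Int.floor_le _, (Int.lt_floor_add_one _).le⟩, ⟨Int.floor_le _, (Int.lt_floor_add_one _).le⟩⟩
  refine Bornology.IsBounded.subset ?_ hcov
  rw [Bornology.isBounded_biUnion hfin2]
  intro u _
  exact Bornology.IsBounded.prod (Metric.isBounded_Icc _ _) (Metric.isBounded_Icc _ _)

/-! ### Counting -/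

theorem zero_mem_Fm (a : Mark) : (0 : V 2) ∈ Fm a := by
  unfold Fm Gm
  rw [Finset.mem_biUnion]
  refine ⟨0, by simp, ?_⟩
  rw [mem_Bx]
  have hfl : ∀ u : unitInterval, |0 - ⌊(u : ℝ)⌋| ≤ ((2 : ℕ) : ℤ) := by
    intro u
    have h0 : 0 ≤ ⌊(u : ℝ)⌋ := Int.floor_nonneg.mpr u.2.1
    have h1 : ⌊(u : ℝ)⌋ ≤ 1 := by
      have : ⌊(u : ℝ)⌋ ≤ ⌊(1 : ℝ)⌋ := Int.floor_le_floor u.2.2
      simpa using this
    rw [abs_le]
    push_cast
    constructor <;> linarith
  intro j
  fin_cases j
  · have := hfl a.1.1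
    simpa [fl, pt] using this
  · have := hfl a.1.2
    simpa [fl, pt] using this

theorem small_Fm (a : Mark) (r : ℕ) (h : ⌊a.2.2⌋₊ + 4 < r) : small r (Fm a) := by
  intro z hz z' hz' j
  unfold Fm Gm at hz hz'
  rw [Finset.mem_biUnion] at hz hz'
  obtain ⟨q, hq, hz⟩ := hz
  obtain ⟨q', hq', hz'⟩ := hz'
  rw [Finset.mem_range, Nat.lt_succ_iff] at hq hq'
  rw [mem_Bx] at hz hz'
  have h1 := hz j
  have h2 := hz' j
  have h3 : |(q : ℝ) - (q' : ℝ)| ≤ (⌊a.2.2⌋₊ : ℕ) := by
    have e1 : (q : ℝ) ≤ (⌊a.2.2⌋₊ : ℕ) := by exact_mod_cast hq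
    have e2 : (q' : ℝ) ≤ (⌊a.2.2⌋₊ : ℕ) := by exact_mod_cast hq'
    have e3 : (0 : ℝ) ≤ q := by positivity
    have e4 : (0 : ℝ) ≤ q' := by positivity
    rw [abs_le]
    constructor <;> linarith
  have h4 := pt_close a q q' _ h3 j
  have h5 : ((⌊a.2.2⌋₊ : ℕ) : ℤ) + 4 < r := by exact_mod_cast h
  rw [abs_le] at h1 h2 h4
  rw [abs_lt]
  push_cast at h1 h2
  constructor <;> linarith [h1.1, h1.2, h2.1, h2.2, h4.1, h4.2]

theorem count_touch (a : Mark) (c : V 2) (R : ℕ) (hR : 1 ≤ R) :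
    ∑' x, one? (touches (x, Fm a) c R) ≤ ((81 * R * (⌊a.2.2⌋₊ + R) : ℕ) : ℝ≥0∞) := by
  classical
  set n := ⌊a.2.2⌋₊ with hn
  have h : ∀ x : V 2, one? (touches (x, Fm a) c R) ≤
      ∑ i ∈ Finset.range (n / R + 1), ind (Bx (c - fl (pt a ((i * R : ℕ) : ℝ))) (2 * R + 2)) x := by
    intro x
    by_cases hx : touches (x, Fm a) c R
    · obtain ⟨z, hz, hzB⟩ := hx
      simp only at hz hzB
      unfold Fm Gm at hz
      rw [Finset.mem_biUnion] at hz
      obtain ⟨q, hq, hz⟩ := hz
      rw [Finset.mem_range, Nat.lt_succ_iff] at hq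
      rw [mem_Bx] at hz hzB
      have hmem : x ∈ Bx (c - fl (pt a (((q / R) * R : ℕ) : ℝ))) (2 * R + 2) := by
        rw [mem_Bx]
        intro j
        have h1 := hz j
        have h2 := hzB j
        have h3 : |(q : ℝ) - (((q / R) * R : ℕ) : ℝ)| ≤ (R : ℕ) := by
          have e1 : q / R * R ≤ q := Nat.div_mul_le_self q R
          have e2 : q < q / R * R + R := by
            have := Nat.lt_div_mul_add (a := q) (b := R) (by omega)
            exact this
          have e1' : (((q / R) * R : ℕ) : ℝ) ≤ q := by exact_mod_cast e1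
          have e2' : (q : ℝ) < (((q / R) * R : ℕ) : ℝ) + R := by exact_mod_cast e2
          rw [abs_le]
          constructor <;> linarith
        have h4 := pt_close a q _ R h3 j
        simp only [Pi.add_apply, Pi.sub_apply] at h2 ⊢
        rw [abs_le] at h1 h2 h4 ⊢
        push_cast at h1 h2 h4 ⊢
        constructor <;> linarith [h1.1, h1.2, h2.1, h2.2, h4.1, h4.2]
      have hi : q / R ∈ Finset.range (n / R + 1) := by
        rw [Finset.mem_range, Nat.lt_succ_iff]
        exact Nat.div_le_div_right hq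
      refine (one?_le_one _).trans ?_
      refine le_trans ?_ (Finset.single_le_sum (f := fun i =>
        ind (Bx (c - fl (pt a ((i * R : ℕ) : ℝ))) (2 * R + 2)) x) (fun _ _ => zero_le) hi)
      simp only [ind, if_pos hmem]
      exact le_rfl
    · rw [one?_false hx]; exact zero_le
  refine (ENNReal.tsum_le_tsum h).trans ?_
  rw [Summable.tsum_finsetSum (fun _ _ => ENNReal.summable)]
  simp only [tsum_ind, card_Bx]
  rw [Finset.sum_const, Finset.card_range, nsmul_eq_mul]
  have hfin : (n / R + 1) * (2 * (2 * R + 2) + 1) ^ 2 ≤ 81 * R * (n + R) := by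
    have e1 : n / R * R ≤ n := Nat.div_mul_le_self n R
    calc (n / R + 1) * (2 * (2 * R + 2) + 1) ^ 2 ≤ (n / R + 1) * (9 * R) ^ 2 := by
          refine Nat.mul_le_mul_left _ (Nat.pow_le_pow_left (by omega) 2)
      _ = 81 * R * (n / R * R + R) := by ring
      _ ≤ _ := Nat.mul_le_mul_left _ (by omega)
  exact_mod_cast hfin

/-- the mean number of bad sticks -/
theorem count_bad (a : Mark) (c : V 2) (r : ℕ) (hr : 1 ≤ r) :
    ∑' x, one? (bad c r (x, Fm a)) ≤ 1944 * (121 * ((r : ℝ≥0∞) *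
      (if (r : ℝ) / 5 ≤ a.2.2 then ENNReal.ofReal a.2.2 else 0)) + 384) := by
  set n := ⌊a.2.2⌋₊ with hn
  by_cases hrn : n + 4 < r
  · have h0 : ∀ x, one? (bad c r (x, Fm a)) = 0 := by
      intro x
      refine one?_false ?_
      rintro ⟨_, h | h⟩
      · exact h (zero_mem_Fm a)
      · exact h (small_Fm a r hrn)
    simp_rw [h0]
    simp
  · have h1 : ∑' x, one? (bad c r (x, Fm a)) ≤ ((81 * (24 * r) * (n + 24 * r) : ℕ) : ℝ≥0∞) :=
      (ENNReal.tsum_le_tsum fun x => one?_mono fun h => h.1).trans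
        (count_touch a c (24 * r) (by omega))
    refine h1.trans ?_
    have h2 : (81 * (24 * r) * (n + 24 * r) : ℕ) = 1944 * (r * (n + 24 * r)) := by ring
    rw [h2]
    push_cast
    refine mul_le_mul' le_rfl ?_
    by_cases hn0 : n = 0
    · have h3 : r * (n + 24 * r) ≤ 384 := by
        have : r ≤ 4 := by omega
        rw [hn0, zero_add]
        calc r * (24 * r) ≤ 4 * (24 * 4) := Nat.mul_le_mul this (by omega)
          _ = 384 := by norm_num
      have h4 : ((r * (n + 24 * r) : ℕ) : ℝ≥0∞) ≤ 384 := by exact_mod_cast h3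
      refine le_trans ?_ (le_add_of_nonneg_left (zero_le))
      push_cast at h4
      exact h4
    · have hn1 : 1 ≤ n := by omega
      have hL : (n : ℝ) ≤ a.2.2 := by
        refine Nat.floor_le ?_
        by_contra hneg
        push Not at hneg
        have : n = 0 := by rw [hn]; exact Nat.floor_of_nonpos hneg.le
        omega
      have hif : (r : ℝ) / 5 ≤ a.2.2 := by
        have h5 : r ≤ 5 * n := by omega
        have h5' : (r : ℝ) ≤ 5 * n := by exact_mod_cast h5
        linarith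
      rw [if_pos hif]
      have h6 : (n : ℝ≥0∞) ≤ ENNReal.ofReal a.2.2 := by
        rw [← ENNReal.ofReal_natCast]
        exact ENNReal.ofReal_le_ofReal hL
      have h7 : r * (n + 24 * r) ≤ 121 * (r * n) + 384 := by
        by_cases h5 : 5 ≤ r
        · have : r * (n + 24 * r) ≤ r * (n + 24 * (5 * n)) := by
            refine Nat.mul_le_mul_left _ ?_
            omega
          calc r * (n + 24 * r) ≤ r * (n + 24 * (5 * n)) := this
            _ = 121 * (r * n) := by ring
            _ ≤ _ := Nat.le_add_right _ _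
        · have h8 : r * r ≤ 4 * 4 := Nat.mul_le_mul (by omega) (by omega)
          nlinarith
      have h8 : ((r * (n + 24 * r) : ℕ) : ℝ≥0∞) ≤ 121 * ((r : ℝ≥0∞) * n) + 384 := by
        exact_mod_cast h7
      push_cast at h8
      refine h8.trans ?_
      gcongr

/-- truncated mean of the length -/
theorem trunc_mean (μ : Measure ℝ) [IsProbabilityMeasure μ] (A : ℝ≥0∞)
    (h : ∀ r : ℝ, 0 < r → ENNReal.ofReal (r ^ 2) * μ (Set.Ici r) ≤ A) (ρ : ℝ) (hρ : 0 < ρ) :
    ENNReal.ofReal ρ * ∫⁻ L, (if ρ ≤ L then ENNReal.ofReal L else 0) ∂μ ≤ 4 * A := by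
  have h1 : ∀ L : ℝ, (if ρ ≤ L then ENNReal.ofReal L else 0) ≤
      ∑' k : ℕ, ENNReal.ofReal (2 ^ (k + 1) * ρ) * (Set.Ici (2 ^ k * ρ)).indicator 1 L := by
    intro L
    split_ifs with hL
    · have hL0 : 0 < L := hρ.trans_le hL
      obtain ⟨k, hk1, hk2⟩ : ∃ k : ℕ, 2 ^ k * ρ ≤ L ∧ L < 2 ^ (k + 1) * ρ := by
        have h2 : 1 ≤ L / ρ := by rw [le_div_iff₀ hρ]; linarith
        obtain ⟨k, hk1, hk2⟩ := exists_nat_pow_near h2 (by norm_num : (1 : ℝ) < 2)
        refine ⟨k, ?_, ?_⟩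
        · rwa [le_div_iff₀ hρ] at hk1
        · rwa [div_lt_iff₀ hρ] at hk2
      refine le_trans ?_ (ENNReal.le_tsum k)
      rw [Set.indicator_of_mem (by exact hk1)]
      simp only [Pi.one_apply, mul_one]
      exact ENNReal.ofReal_le_ofReal hk2.le
    · exact zero_le
  have h2 : ∫⁻ L, (if ρ ≤ L then ENNReal.ofReal L else 0) ∂μ ≤
      ∑' k : ℕ, ENNReal.ofReal (2 ^ (k + 1) * ρ) * μ (Set.Ici (2 ^ k * ρ)) := by
    refine (lintegral_mono h1).trans (le_of_eq ?_)
    rw [lintegral_tsum]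
    · refine tsum_congr fun k => ?_
      rw [lintegral_const_mul _ (measurable_one.indicator measurableSet_Ici),
        lintegral_indicator_one measurableSet_Ici]
    · intro k
      exact ((measurable_one.indicator measurableSet_Ici).const_mul _).aemeasurable
  refine (mul_le_mul' le_rfl h2).trans ?_
  rw [← ENNReal.tsum_mul_left]
  have h3 : ∀ k : ℕ, ENNReal.ofReal ρ * (ENNReal.ofReal (2 ^ (k + 1) * ρ) * μ (Set.Ici (2 ^ k * ρ)))
      ≤ ENNReal.ofReal (2 * (1 / 2) ^ k) * A := by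
    intro k
    have h4 := h (2 ^ k * ρ) (by positivity)
    calc ENNReal.ofReal ρ * (ENNReal.ofReal (2 ^ (k + 1) * ρ) * μ (Set.Ici (2 ^ k * ρ)))
        = ENNReal.ofReal (2 * (1 / 2) ^ k) * (ENNReal.ofReal ((2 ^ k * ρ) ^ 2) *
            μ (Set.Ici (2 ^ k * ρ))) := by
          rw [← mul_assoc, ← mul_assoc, ← ENNReal.ofReal_mul hρ.le,
            ← ENNReal.ofReal_mul (by positivity)]
          congr 2
          rw [one_div, inv_pow]
          field_simp
          ring
      _ ≤ _ := mul_le_mul' le_rfl h4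
  refine (ENNReal.tsum_le_tsum h3).trans (le_of_eq ?_)
  rw [ENNReal.tsum_mul_right]
  congr 1
  rw [← ENNReal.ofReal_tsum_of_nonneg (fun k => by positivity)
    ((summable_geometric_of_lt_one (by norm_num) (by norm_num)).mul_left _), tsum_mul_left,
    tsum_geometric_of_lt_one (by norm_num) (by norm_num)]
  norm_num

/-- the weight of a key -/
def wt (μ : Measure ℝ) (k : V 2 × Finset (V 2)) : ℝ≥0∞ := oneLaw μ (Fm ⁻¹' {k.2})

theorem oneLaw_length (μ : Measure ℝ) [IsProbabilityMeasure μ] (f : ℝ → ℝ≥0∞) (hf : Measurable f) :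
    ∫⁻ a, f a.2.2 ∂(oneLaw μ) = ∫⁻ L, f L ∂μ := by
  unfold oneLaw
  have h1 : MeasurePreserving (fun a : Mark => a.2) (((volume : Measure unitInterval).prod
      (volume : Measure unitInterval)).prod ((volume : Measure unitInterval).prod μ))
      ((volume : Measure unitInterval).prod μ) := measurePreserving_snd
  have h2 : MeasurePreserving (fun a : unitInterval × ℝ => a.2)
      ((volume : Measure unitInterval).prod μ) μ := measurePreserving_snd
  exact (h2.comp h1).lintegral_comp hf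

theorem sum_bad (μ : Measure ℝ) [IsProbabilityMeasure μ] (A : ℝ≥0∞)
    (h : ∀ r : ℝ, 0 < r → ENNReal.ofReal (r ^ 2) * μ (Set.Ici r) ≤ A) (c : V 2) (r : ℕ)
    (hr : 1 ≤ r) :
    ∑' k, wt μ k * one? (bad c r k) ≤ 1944 * (121 * (20 * A) + 384) := by
  unfold wt
  rw [sum_keysG Fm Fm_meas (oneLaw μ) fun k => one? (bad c r k)]
  refine (lintegral_mono fun a => count_bad a c r hr).trans ?_
  have hmeas : Measurable fun L : ℝ => (if (r : ℝ) / 5 ≤ L then ENNReal.ofReal L else 0) :=
    Measurable.ite measurableSet_Ici ENNReal.measurable_ofReal measurable_const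
  have hmeas2 : Measurable fun L : ℝ =>
      1944 * (121 * ((r : ℝ≥0∞) * (if (r : ℝ) / 5 ≤ L then ENNReal.ofReal L else 0)) + 384) := by
    exact (((hmeas.const_mul _).const_mul _).add_const _).const_mul _
  rw [oneLaw_length μ (fun L : ℝ =>
      1944 * (121 * ((r : ℝ≥0∞) * (if (r : ℝ) / 5 ≤ L then ENNReal.ofReal L else 0)) + 384)) hmeas2]
  rw [lintegral_const_mul _ (((hmeas.const_mul _).const_mul _).add_const _),
    lintegral_add_right _ measurable_const, lintegral_const_mul _ (hmeas.const_mul _),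
    lintegral_const_mul _ hmeas, lintegral_const, measure_univ, mul_one]
  refine mul_le_mul' le_rfl (add_le_add (mul_le_mul' le_rfl ?_) le_rfl)
  have hr0 : (0 : ℝ) < (r : ℝ) / 5 := by
    have : (1 : ℝ) ≤ r := by exact_mod_cast hr
    positivity
  have h1 := trunc_mean μ A h ((r : ℝ) / 5) hr0
  have h2 : (r : ℝ≥0∞) = 5 * ENNReal.ofReal ((r : ℝ) / 5) := by
    have : (5 : ℝ≥0∞) = ENNReal.ofReal 5 := by norm_num
    rw [this, ← ENNReal.ofReal_mul (by norm_num), mul_div_cancel₀ _ (by norm_num),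
      ENNReal.ofReal_natCast]
  rw [h2, mul_assoc]
  calc 5 * (ENNReal.ofReal ((r : ℝ) / 5) * ∫⁻ L, (if (r : ℝ) / 5 ≤ L then ENNReal.ofReal L else 0) ∂μ)
      ≤ 5 * (4 * A) := mul_le_mul' le_rfl h1
    _ = 20 * A := by rw [← mul_assoc]; norm_num

theorem sum_box (μ : Measure ℝ) [IsProbabilityMeasure μ] (c : V 2) :
    ∑' k, wt μ k * one? (k.1 ∈ Bx c 3) ≤ ENNReal.ofReal (7 ^ 2) := by
  unfold wt
  rw [sum_keysG Fm Fm_meas (oneLaw μ) fun k => one? (k.1 ∈ Bx c 3)]
  have h : ∑' x : V 2, one? (x ∈ Bx c 3) = 49 := by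
    have : ∀ x : V 2, one? (x ∈ Bx c 3) = ind (Bx c 3) x := by
      intro x
      unfold one? ind
      by_cases hx : x ∈ Bx c 3
      · simp [hx]
      · simp [hx]
    simp_rw [this]
    rw [tsum_ind, card_Bx]
    norm_num
  simp only [h]
  rw [lintegral_const, measure_univ, mul_one]
  norm_num

/-- **Positive critical intensity.** -/
theorem critical_pos (μ : Measure ℝ) [IsProbabilityMeasure μ] (A : ℝ≥0∞) (hA : A ≠ ⊤)
    (h : ∀ r : ℝ, 0 < r → ENNReal.ofReal (r ^ 2) * μ (Set.Ici r) ≤ A) :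
    0 < critical μ := by
  have hfin : 1944 * (121 * (20 * A) + 384) ≠ ⊤ := by
    refine ENNReal.mul_ne_top (by norm_num) (ENNReal.add_ne_top.mpr ⟨?_, by norm_num⟩)
    exact ENNReal.mul_ne_top (by norm_num) (ENNReal.mul_ne_top (by norm_num) hA)
  obtain ⟨v, hv, hmain⟩ := upper_gen (d := 2) (wt μ) (1944 * (121 * (20 * A) + 384)).toReal
    (fun c r hr => by
      rw [ENNReal.ofReal_toReal hfin]
      exact sum_bad μ A h c r hr)
    (sum_box μ)
  have key : ∀ t : ℝ≥0, (t : ℝ) ≤ v → sticksLaw t μ {ω | Percolates (occupied ω)} = 0 := by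
    intro t ht
    have hsub : {ω | Percolates (occupied ω)} ⊆ {ω | perc (occ (Qs (xiG phiE Fm) ω))} := by
      intro ω hω
      exact perc_of_percolates ω hω
    refine measure_mono_null hsub ?_
    refine hmain _ (markedLaw (ℤ × ℤ) t (oneLaw μ)) (xiG phiE Fm) (xiG_measurable phiE Fm Fm_meas)
      (xiG_indep phiE Fm Fm_meas t (oneLaw μ)) (fun k => ?_)
    rw [xiG_prob phiE Fm Fm_meas t (oneLaw μ) k]
    set q := oneLaw μ (Fm ⁻¹' {k.2}) with hq
    have hqt : q ≠ ⊤ := measure_ne_top _ _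
    have hq0 : 0 ≤ q.toReal := ENNReal.toReal_nonneg
    calc ENNReal.ofReal (1 - Real.exp (-(t * q.toReal)))
        ≤ ENNReal.ofReal (v * q.toReal) := by
          refine ENNReal.ofReal_le_ofReal ?_
          have := Real.add_one_le_exp (-(t * q.toReal))
          nlinarith
      _ = ENNReal.ofReal v * q := by
          rw [ENNReal.ofReal_mul hv.le, ENNReal.ofReal_toReal hqt]
  refine lt_of_lt_of_le (ENNReal.ofReal_pos.mpr hv) (le_iInf ?_)
  rintro ⟨t, ht0, ht⟩
  by_contra hlt
  push Not at hlt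
  have htv : (t : ℝ) ≤ v := by
    have h1 : (t : ℝ≥0∞) ≤ ENNReal.ofReal v := hlt.le
    have h2 := ENNReal.toReal_mono ENNReal.ofReal_ne_top h1
    rwa [ENNReal.toReal_ofReal hv.le, ENNReal.coe_toReal] at h2
  rw [key t htv] at ht
  exact lt_irrefl _ ht

end

end Pool.Agent.V5helper43.PR
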